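import Pool.Agent.N636.TD.Defs

/-!
# Statements of the parts of the project TD
-/

set_option autoImplicit false

namespace Pool.Agent.N636.TD

open Pool.Agent.N636.SF (seg attempt Phi jump IsIndex cons)

/-! ### The diagonal argument -/

/-- The initial segment of length `m` of a set. -/
noncomputable def segB (X : Set ℕ) (m : ℕ) : List Bool := by
  classical exact (List.range m).map fun i => decide (i ∈ X)

/-- The value given by the oracle computation which can be found with the finite string `τ` (in at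
most `τ.length + 1` attempts). -/
def PhiS (τ : List Bool) (e n : ℕ) : Option ℕ :=
  ((List.range (τ.length + 1)).filterMap fun u =>
    Nat.Partrec.Code.evaln u.unpair.1 (Denumerable.ofNat Nat.Partrec.Code e)
      (Nat.pair (Encodable.encode (τ.take u.unpair.2)) n)).head?

/-- The triple coded by a number. -/
def dec (w : ℕ) : List Bool × List Bool × ℕ := (Encodable.decode w).getD ([], [], 0)

/-- `w` codes strings `τ`, `ρ` and a value `v` such that `τ` extends `σ` followed by `b`, the program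
`e₁` gives `ρ` from `τ`, and `e₂` gives `v` from `ρ` at `|σ|`. -/
def Wit (σ : List Bool) (b : Bool) (e₁ e₂ w : ℕ) : Prop :=
  (σ ++ [b]) <+: (dec w).1 ∧
    (∀ n < (dec w).2.1.length, PhiS (dec w).1 e₁ n = some ((dec w).2.1.getD n false).toNat) ∧
    PhiS (dec w).2.1 e₂ σ.length = some (dec w).2.2

open Classical in
/-- The least witness (`0` if there is none). -/
noncomputable def wit (σ : List Bool) (b : Bool) (e₁ e₂ : ℕ) : ℕ :=
  if h : ∃ w, Wit σ b e₁ e₂ w then Nat.find h else 0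

open Classical in
/-- The step for the requirement that `T i` and the set constructed are not computable in each other
with the programs `e₁` and `e₂`. -/
noncomputable def step (T : ℕ → Set ℕ) (σ : List Bool) (i e₁ e₂ : ℕ) : List Bool :=
  if ¬ ∃ w, Wit σ false e₁ e₂ w then σ ++ [false]
  else if ¬ ∃ w, Wit σ true e₁ e₂ w then σ ++ [true]
  else if (dec (wit σ false e₁ e₂)).2.1 ≠ segB (T i) (dec (wit σ false e₁ e₂)).2.1.length then
    (dec (wit σ false e₁ e₂)).1
  else if (dec (wit σ true e₁ e₂)).2.1 ≠ segB (T i) (dec (wit σ true e₁ e₂)).2.1.length then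
    (dec (wit σ true e₁ e₂)).1
  else if (dec (wit σ false e₁ e₂)).2.2 = 0 then (dec (wit σ true e₁ e₂)).1
  else (dec (wit σ false e₁ e₂)).1

/-- The strings of the construction. -/
noncomputable def sigma (T : ℕ → Set ℕ) : ℕ → List Bool
  | 0 => []
  | s + 1 => step T (sigma T s) s.unpair.1 s.unpair.2.unpair.1 s.unpair.2.unpair.2

/-- The set constructed. -/
def Dset (T : ℕ → Set ℕ) : Set ℕ := {n | (sigma T (n + 1)).getD n false = true}

/-- All the requirements are satisfied. -/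
def S_d1 : Prop := ∀ (T : ℕ → Set ℕ) (i e₁ e₂ : ℕ),
  ¬ (IsIndex (Dset T) e₁ (T i) ∧ IsIndex (T i) e₂ (Dset T))

/-- The construction is computable in `O`. -/
def S_d2 : Prop := ∀ (O : Set ℕ) (T : ℕ → Set ℕ),
  (∀ P : ℕ → Prop, REPred P → ∃ h : ℕ → ℕ, Computable h ∧ ∀ n, P n ↔ h n ∈ O) →
  TRed {z | z.unpair.2 ∈ T z.unpair.1} O → TRed (Dset T) O

/-! ### Reductions to the jump -/

/-- The jump, uniformly. -/
def S_jb : Prop := ∀ f : ℕ × ℕ →. ℕ, Partrec f → ∃ t : ℕ → ℕ, Computable t ∧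
  ∀ (X : Set ℕ) (z : ℕ), t z ∈ jump X ↔ ∃ m, (f (z, seg X m)).Dom

/-- Uniform reductions to the jump. -/
structure Maps : Prop where
  up : ∃ u : ℕ → ℕ, Computable u ∧ ∀ (X : Set ℕ) (x : ℕ), u x ∈ jump X ↔ x ∈ X
  ng : ∃ u : ℕ → ℕ, Computable u ∧ ∀ (X : Set ℕ) (x : ℕ), u x ∈ jump X ↔ x ∉ X
  an : ∃ u : ℕ → ℕ, Computable u ∧
    ∀ (X : Set ℕ) (x y : ℕ), u (Nat.pair x y) ∈ jump X ↔ x ∈ X ∧ y ∈ X
  ex : ∃ u : ℕ → ℕ, Computable u ∧ ∀ (X : Set ℕ) (e c p : ℕ) (g : ℕ → ℕ),
    (∀ b, g b ∈ Nat.Partrec.Code.eval (Denumerable.ofNat Nat.Partrec.Code c) (Nat.pair b p)) →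
      (u (Nat.pair (Nat.pair e c) p) ∈ jump X ↔ ∃ b ∈ We e, g b ∉ X)
  we : ∃ u : ℕ → ℕ, Computable u ∧
    ∀ (X : Set ℕ) (e n : ℕ), u (Nat.pair e n) ∈ jump X ↔ n ∈ We e

/-- Substitution in terms is computable. -/
def S_ren : Prop := ∃ r : ℕ → ℕ, Computable r ∧
  ∀ (t : Tr) (p : ℕ), r (Nat.pair t.code p) = (t.ren (asg p)).code

/-- Truth in a structure is determined by the atomic diagram. -/
def S_semS : Prop := ∀ (L : Sig) (M : Str L) (φ : Fm), IsSentence L φ →
  (Models M φ ↔ Tru (diagram M) M.U φ (asg 0))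

end Pool.Agent.N636.TD
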