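import Mathlib
import Pool.Agent.N636.TD.Stm

/-!
# TD/D1: the diagonal construction satisfies the requirements
-/

set_option autoImplicit false

namespace Pool.Agent.N636.TD

open Pool.Agent.N636.SF (seg attempt Phi jump IsIndex)

namespace P_D1

/-! ### Initial segments -/

theorem length_segB (X : Set ℕ) (m : ℕ) : (segB X m).length = m := by simp [segB]

theorem getD_segB (X : Set ℕ) (m n : ℕ) (h : n < m) :
    (segB X m).getD n false = true ↔ n ∈ X := by
  simp [segB, List.getD, h]

theorem seg_eq (X : Set ℕ) (m : ℕ) : seg X m = Encodable.encode (segB X m) := by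
  unfold seg segB
  rfl

theorem ext_getD {l l' : List Bool} (h : l.length = l'.length)
    (h' : ∀ n < l.length, (l.getD n false = true ↔ l'.getD n false = true)) : l = l' := by
  refine List.ext_getElem h ?_
  intro n h1 h2
  have := h' n h1
  rw [List.getD_eq_getElem _ _ h1, List.getD_eq_getElem _ _ h2] at this
  exact Bool.eq_iff_iff.2 this

theorem take_segB (X : Set ℕ) (k j : ℕ) (h : j ≤ k) : (segB X k).take j = segB X j := by
  unfold segB
  rw [← List.map_take, List.take_range, min_eq_left h]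

theorem prefix_segB (X : Set ℕ) {k j : ℕ} (h : j ≤ k) : segB X j <+: segB X k := by
  rw [← take_segB X k j h]; exact List.take_prefix _ _

/-! ### First successes -/

theorem head_filterMap (f : ℕ → Option ℕ) (m y : ℕ) :
    ((List.range m).filterMap f).head? = some y ↔
      ∃ u < m, f u = some y ∧ ∀ u' < u, f u' = none := by
  rw [List.head?_filterMap]
  induction m with
  | zero => simp
  | succ m ih =>
    rw [List.range_succ, List.findSome?_append, Option.or_eq_some_iff]
    constructor
    · rintro (h | ⟨h1, h2⟩)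
      · obtain ⟨u, hu, h3⟩ := ih.1 h
        exact ⟨u, by omega, h3⟩
      · refine ⟨m, by omega, ?_, ?_⟩
        · simpa using h2
        · intro u' hu'
          rw [List.findSome?_eq_none_iff] at h1
          exact h1 u' (List.mem_range.2 hu')
    · rintro ⟨u, hu, h1, h2⟩
      by_cases hum : u < m
      · exact Or.inl (ih.2 ⟨u, hum, h1, h2⟩)
      · have : u = m := by omega
        subst this
        refine Or.inr ⟨?_, by simpa using h1⟩
        rw [List.findSome?_eq_none_iff]
        intro x hx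
        exact h2 x (List.mem_range.1 hx)

theorem PhiS_iff (X : Set ℕ) (k e n y : ℕ) : PhiS (segB X k) e n = some y ↔
    ∃ u < k + 1, attempt X e n u = some y ∧ ∀ u' < u, attempt X e n u' = none := by
  unfold PhiS
  rw [head_filterMap, length_segB]
  have key : ∀ u < k + 1, Nat.Partrec.Code.evaln u.unpair.1
      (Denumerable.ofNat Nat.Partrec.Code e)
      (Nat.pair (Encodable.encode ((segB X k).take u.unpair.2)) n) = attempt X e n u := by
    intro u hu
    have h1 : u.unpair.2 ≤ k := (Nat.unpair_right_le u).trans (by omega)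
    rw [take_segB X k _ h1, ← seg_eq]
    rfl
  constructor
  · rintro ⟨u, hu, h1, h2⟩
    refine ⟨u, hu, ?_, ?_⟩
    · rw [← key u hu]; exact h1
    · intro u' hu'
      rw [← key u' (by omega)]; exact h2 u' hu'
  · rintro ⟨u, hu, h1, h2⟩
    refine ⟨u, hu, ?_, ?_⟩
    · rw [key u hu]; exact h1
    · intro u' hu'
      rw [key u' (by omega)]; exact h2 u' hu'

theorem Phi_of_PhiS {X : Set ℕ} {k e n y : ℕ} (h : PhiS (segB X k) e n = some y) :
    Phi X e n y := by
  obtain ⟨u, -, h1, h2⟩ := (PhiS_iff X k e n y).1 h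
  exact ⟨u, h1, h2⟩

theorem PhiS_of_Phi {X : Set ℕ} {e n y : ℕ} (h : Phi X e n y) :
    ∃ k0, ∀ k, k0 ≤ k → PhiS (segB X k) e n = some y := by
  obtain ⟨u, h1, h2⟩ := h
  exact ⟨u, fun k hk => (PhiS_iff X k e n y).2 ⟨u, by omega, h1, h2⟩⟩

theorem Phi_unique {X : Set ℕ} {e n y y' : ℕ} (h : Phi X e n y) (h' : Phi X e n y') : y = y' := by
  obtain ⟨u, h1, h2⟩ := h
  obtain ⟨v, h3, h4⟩ := h'
  rcases lt_trichotomy u v with huv | huv | huv
  · rw [h4 u huv] at h1; simp at h1
  · subst huv; rw [h1] at h3; simpa using h3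
  · rw [h2 v huv] at h3; simp at h3

/-! ### The construction -/

theorem wit_spec {σ : List Bool} {b : Bool} {e₁ e₂ : ℕ} (h : ∃ w, Wit σ b e₁ e₂ w) :
    Wit σ b e₁ e₂ (wit σ b e₁ e₂) := by
  classical
  unfold wit
  rw [dif_pos h]
  exact Nat.find_spec h

theorem step_ext (T : ℕ → Set ℕ) (σ : List Bool) (i e₁ e₂ : ℕ) :
    ∃ b, (σ ++ [b]) <+: step T σ i e₁ e₂ := by
  classical
  unfold step
  by_cases c1 : ∃ w, Wit σ false e₁ e₂ w
  swap
  · rw [if_pos c1]; exact ⟨false, List.prefix_rfl⟩
  rw [if_neg (not_not.2 c1)]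
  by_cases c2 : ∃ w, Wit σ true e₁ e₂ w
  swap
  · rw [if_pos c2]; exact ⟨true, List.prefix_rfl⟩
  rw [if_neg (not_not.2 c2)]
  have hw0 := (wit_spec c1).1
  have hw1 := (wit_spec c2).1
  split_ifs
  all_goals first
    | exact ⟨false, hw0⟩
    | exact ⟨true, hw1⟩

theorem sigma_succ (T : ℕ → Set ℕ) (s : ℕ) : ∃ b, (sigma T s ++ [b]) <+: sigma T (s + 1) :=
  step_ext T _ _ _ _

theorem sigma_mono (T : ℕ → Set ℕ) {s t : ℕ} (h : s ≤ t) : sigma T s <+: sigma T t := by
  induction t, h using Nat.le_induction with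
  | base => exact List.prefix_rfl
  | succ t _ ih =>
    obtain ⟨b, hb⟩ := sigma_succ T t
    exact ih.trans ((List.prefix_append _ _).trans hb)

theorem sigma_length (T : ℕ → Set ℕ) (s : ℕ) : s ≤ (sigma T s).length := by
  induction s with
  | zero => simp
  | succ s ih =>
    obtain ⟨b, hb⟩ := sigma_succ T s
    have := hb.length_le
    simp at this
    omega

theorem getD_prefix {l l' : List Bool} (h : l <+: l') {n : ℕ} (hn : n < l.length) :
    l.getD n false = l'.getD n false := by
  obtain ⟨t, rfl⟩ := h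
  rw [List.getD_append _ _ _ _ hn]

theorem mem_Dset (T : ℕ → Set ℕ) (s n : ℕ) (hn : n < (sigma T s).length) :
    n ∈ Dset T ↔ (sigma T s).getD n false = true := by
  have hn' : n < (sigma T (n + 1)).length := sigma_length T (n + 1)
  change (sigma T (n + 1)).getD n false = true ↔ _
  rcases le_total (n + 1) s with h | h
  · rw [getD_prefix (sigma_mono T h) hn']
  · rw [getD_prefix (sigma_mono T h) hn]

theorem sigma_eq (T : ℕ → Set ℕ) (s : ℕ) :
    sigma T s = segB (Dset T) (sigma T s).length := by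
  refine ext_getD (by rw [length_segB]) ?_
  intro n hn
  rw [getD_segB _ _ _ hn, mem_Dset T s n hn]

/-- A string which gives the values of an index. -/
theorem eq_segB_of_index {X Y : Set ℕ} {e m : ℕ} {ρ : List Bool} (h : IsIndex X e Y)
    (h' : ∀ n < ρ.length, PhiS (segB X m) e n = some (ρ.getD n false).toNat) :
    ρ = segB Y ρ.length := by
  refine ext_getD (by rw [length_segB]) ?_
  intro n hn
  rw [getD_segB _ _ _ hn]
  have h1 := Phi_of_PhiS (h' n hn)
  by_cases hY : n ∈ Y
  · have h2 := Phi_unique h1 ((h n).1 hY)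
    refine ⟨fun _ => hY, fun _ => ?_⟩
    cases hb : ρ.getD n false
    · rw [hb] at h2; simp at h2
    · rfl
  · have h2 := Phi_unique h1 ((h n).2 hY)
    refine ⟨fun hb => ?_, fun hb => absurd hb hY⟩
    rw [hb] at h2; simp at h2

theorem key {D Y : Set ℕ} {e₁ e₂ : ℕ} (h1 : IsIndex D e₁ Y) (h2 : IsIndex Y e₂ D)
    (σ : List Bool) (b : Bool) {m0 : ℕ} (hb : (σ ++ [b]) <+: segB D m0) :
    ∃ w, Wit σ b e₁ e₂ w := by
  classical
  obtain ⟨v, hv⟩ : ∃ v, Phi Y e₂ σ.length v := by
    by_cases h : σ.length ∈ D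
    · exact ⟨1, (h2 _).1 h⟩
    · exact ⟨0, (h2 _).2 h⟩
  obtain ⟨k, hk⟩ := PhiS_of_Phi hv
  have hm : ∀ n, ∃ m, ∀ m', m ≤ m' →
      PhiS (segB D m') e₁ n = some ((decide (n ∈ Y) : Bool)).toNat := by
    intro n
    by_cases h : n ∈ Y
    · simpa [h] using PhiS_of_Phi ((h1 n).1 h)
    · simpa [h] using PhiS_of_Phi ((h1 n).2 h)
  choose m hm using hm
  let M := m0 + ∑ n ∈ Finset.range k, m n
  have hM0 : m0 ≤ M := Nat.le_add_right _ _
  have hMn : ∀ n < k, m n ≤ M := by
    intro n hn
    have := Finset.single_le_sum (f := m) (fun _ _ => Nat.zero_le _) (Finset.mem_range.2 hn)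
    exact this.trans (Nat.le_add_left _ _)
  refine ⟨Encodable.encode (segB D M, segB Y k, v), ?_⟩
  have hdec : dec (Encodable.encode (segB D M, segB Y k, v)) = (segB D M, segB Y k, v) := by
    unfold dec; rw [Encodable.encodek]; rfl
  unfold Wit
  rw [hdec]
  refine ⟨hb.trans (prefix_segB D hM0), ?_, hk k le_rfl⟩
  intro n hn
  simp only [length_segB] at hn
  rw [hm n M (hMn n hn)]
  congr 2
  rw [Bool.eq_iff_iff, getD_segB _ _ _ hn]
  simp

end P_D1

open P_D1 in
theorem prf_d1 : S_d1 := by
  classical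
  rintro T i e₁ e₂ ⟨h1, h2⟩
  set s := Nat.pair i (Nat.pair e₁ e₂) with hs
  have hstep : sigma T (s + 1) = step T (sigma T s) i e₁ e₂ := by
    change step T (sigma T s) s.unpair.1 s.unpair.2.unpair.1 s.unpair.2.unpair.2 = _
    rw [hs]; simp
  have hseg := sigma_eq T (s + 1)
  -- a prefix of the next string gives a value of `D`
  have hval : ∀ b, (sigma T s ++ [b]) <+: sigma T (s + 1) →
      ((sigma T s).length ∈ Dset T ↔ b = true) := by
    intro b hb
    have hlen : (sigma T s).length < (sigma T s ++ [b]).length := by simp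
    have hlen' : (sigma T s).length < (sigma T (s + 1)).length := hlen.trans_le hb.length_le
    rw [mem_Dset T (s + 1) _ hlen', ← getD_prefix hb hlen]
    simp
  have hk : ∀ b, (sigma T s ++ [b]) <+: sigma T (s + 1) →
      ∃ w, Wit (sigma T s) b e₁ e₂ w := by
    intro b hb
    rw [hseg] at hb
    exact key h1 h2 _ b hb
  have hidx : ∀ w b, Wit (sigma T s) b e₁ e₂ w → sigma T (s + 1) = (dec w).1 →
      (dec w).2.1 = segB (T i) (dec w).2.1.length := by
    intro w b hw hτ
    have h3 : (dec w).1 = segB (Dset T) (dec w).1.length := by rw [← hτ]; exact hseg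
    refine eq_segB_of_index (m := (dec w).1.length) h1 ?_
    rw [← h3]
    exact hw.2.1
  by_cases c1 : ∃ w, Wit (sigma T s) false e₁ e₂ w
  swap
  · apply c1
    apply hk
    rw [hstep]; unfold step; rw [if_pos c1]
  by_cases c2 : ∃ w, Wit (sigma T s) true e₁ e₂ w
  swap
  · apply c2
    apply hk
    rw [hstep]; unfold step; rw [if_neg (not_not.2 c1), if_pos c2]
  have hw0 := wit_spec c1
  have hw1 := wit_spec c2
  by_cases c3 : (dec (wit (sigma T s) false e₁ e₂)).2.1 =
      segB (T i) (dec (wit (sigma T s) false e₁ e₂)).2.1.length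
  swap
  · apply c3
    refine hidx _ _ hw0 ?_
    rw [hstep]; unfold step; rw [if_neg (not_not.2 c1), if_neg (not_not.2 c2), if_pos c3]
  by_cases c4 : (dec (wit (sigma T s) true e₁ e₂)).2.1 =
      segB (T i) (dec (wit (sigma T s) true e₁ e₂)).2.1.length
  swap
  · apply c4
    refine hidx _ _ hw1 ?_
    rw [hstep]; unfold step
    rw [if_neg (not_not.2 c1), if_neg (not_not.2 c2), if_neg (not_not.2 c3), if_pos c4]
  have hp0 : Phi (T i) e₂ (sigma T s).length (dec (wit (sigma T s) false e₁ e₂)).2.2 := by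
    refine Phi_of_PhiS (k := (dec (wit (sigma T s) false e₁ e₂)).2.1.length) ?_
    rw [← c3]; exact hw0.2.2
  have hp1 : Phi (T i) e₂ (sigma T s).length (dec (wit (sigma T s) true e₁ e₂)).2.2 := by
    refine Phi_of_PhiS (k := (dec (wit (sigma T s) true e₁ e₂)).2.1.length) ?_
    rw [← c4]; exact hw1.2.2
  have hv := Phi_unique hp0 hp1
  by_cases c5 : (dec (wit (sigma T s) false e₁ e₂)).2.2 = 0
  · have hτ : sigma T (s + 1) = (dec (wit (sigma T s) true e₁ e₂)).1 := by
      rw [hstep]; unfold step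
      rw [if_neg (not_not.2 c1), if_neg (not_not.2 c2), if_neg (not_not.2 c3),
        if_neg (not_not.2 c4), if_pos c5]
    have hD : (sigma T s).length ∈ Dset T := (hval true (by rw [hτ]; exact hw1.1)).2 rfl
    have := Phi_unique hp0 ((h2 _).1 hD)
    omega
  · have hτ : sigma T (s + 1) = (dec (wit (sigma T s) false e₁ e₂)).1 := by
      rw [hstep]; unfold step
      rw [if_neg (not_not.2 c1), if_neg (not_not.2 c2), if_neg (not_not.2 c3),
        if_neg (not_not.2 c4), if_neg c5]
    have hD : (sigma T s).length ∉ Dset T := by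
      rw [hval false (by rw [hτ]; exact hw0.1)]; simp
    exact c5 (Phi_unique hp0 ((h2 _).2 hD))

end Pool.Agent.N636.TD
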