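import Mathlib
import Pool.Agent.N636.TD.Stm

set_option autoImplicit false

/-!
# The construction is computable in the oracle
-/

namespace Pool.Agent.N636.TD

namespace P_D2

open Encodable Classical

/-! ### total functions recursive in an oracle -/

/-- `f` is tracked by a total function on numbers which is recursive in `O` -/
def R (O : Set (ℕ →. ℕ)) {α β : Type} [Primcodable α] [Primcodable β] (f : α → β) : Prop :=
  ∃ F : ℕ → ℕ, Nat.RecursiveIn O (fun n => Part.some (F n)) ∧ ∀ a, F (encode a) = encode (f a)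

section tools

variable {O : Set (ℕ →. ℕ)} {α β γ : Type} [Primcodable α] [Primcodable β] [Primcodable γ]

theorem nat_comp {f h : ℕ → ℕ} (hf : Nat.RecursiveIn O (fun n => Part.some (f n)))
    (hh : Nat.RecursiveIn O (fun n => Part.some (h n))) :
    Nat.RecursiveIn O (fun n => Part.some (f (h n))) :=
  (Nat.RecursiveIn.comp hf hh).of_eq fun _ => Part.bind_some _ _

theorem nat_pair {f h : ℕ → ℕ} (hf : Nat.RecursiveIn O (fun n => Part.some (f n)))
    (hh : Nat.RecursiveIn O (fun n => Part.some (h n))) :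
    Nat.RecursiveIn O (fun n => Part.some (Nat.pair (f n) (h n))) := by
  refine (Nat.RecursiveIn.pair hf hh).of_eq ?_
  intro n
  simp [Seq.seq]

theorem nat_prim {h : ℕ → ℕ} (hh : Primrec h) : Nat.RecursiveIn O (fun n => Part.some (h n)) :=
  Nat.Primrec.recursiveIn (Primrec.nat_iff.1 hh)

theorem R.comp {f : β → γ} {g : α → β} (hf : R O f) (hg : R O g) : R O (fun a => f (g a)) := by
  obtain ⟨F, hF, hF'⟩ := hf
  obtain ⟨G, hG, hG'⟩ := hg
  refine ⟨fun n => F (G n), nat_comp hF hG, fun a => ?_⟩
  show F (G (encode a)) = _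
  rw [hG', hF']

theorem R.pair {f : α → β} {g : α → γ} (hf : R O f) (hg : R O g) : R O (fun a => (f a, g a)) := by
  obtain ⟨F, hF, hF'⟩ := hf
  obtain ⟨G, hG, hG'⟩ := hg
  refine ⟨fun n => Nat.pair (F n) (G n), nat_pair hF hG, fun a => ?_⟩
  show Nat.pair (F (encode a)) (G (encode a)) = _
  rw [hG', hF']
  rfl

theorem R.of_comp {f : α → β} (hf : Computable f) : R O f := by
  refine ⟨fun n => (encode ((decode (α := α) n).map f)).pred, ?_, fun a => by simp⟩
  have h1 : Computable (fun n => (encode ((decode (α := α) n).map f)).pred) :=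
    Computable.pred.comp (Computable.encode.comp
      (Computable.option_map Computable.decode (hf.comp Computable.snd).to₂))
  have h2 : Nat.Partrec (fun n => Part.some (encode ((decode (α := α) n).map f)).pred) :=
    Partrec.nat_iff.1 h1
  exact h2.recursiveIn

theorem R.of_prim {f : α → β} (hf : Primrec f) : R O f := R.of_comp hf.to_comp

theorem R.fst : R O (Prod.fst : α × β → α) := R.of_prim Primrec.fst

theorem R.snd : R O (Prod.snd : α × β → β) := R.of_prim Primrec.snd

theorem R.cond {c : α → Bool} {f g : α → β} (hc : R O c) (hf : R O f) (hg : R O g) :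
    R O (fun a => bif c a then f a else g a) := by
  have h1 : R O (fun p : Bool × β × β => bif p.1 then p.2.1 else p.2.2) :=
    R.of_prim (Primrec.cond Primrec.fst (Primrec.fst.comp Primrec.snd)
      (Primrec.snd.comp Primrec.snd))
  exact h1.comp (hc.pair (hf.pair hg))

theorem R.prec {f : α → β} {h : α × ℕ × β → β} (hf : R O f) (hh : R O h) :
    R O (fun p : α × ℕ => (Nat.rec (f p.1) (fun n ih => h (p.1, n, ih)) p.2 : β)) := by
  obtain ⟨F, hF, hF'⟩ := hf
  obtain ⟨H, hH, hH'⟩ := hh
  let G : ℕ → ℕ → ℕ := fun a n => Nat.rec (F a) (fun y i => H (Nat.pair a (Nat.pair y i))) n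
  refine ⟨fun p => G p.unpair.1 p.unpair.2, ?_, ?_⟩
  · refine (Nat.RecursiveIn.prec hF hH).of_eq fun p => ?_
    have key : ∀ a n : ℕ, (Nat.rec (Part.some (F a)) (fun y IH => IH >>= fun i =>
        Part.some (H (Nat.pair a (Nat.pair y i)))) n : Part ℕ) = Part.some (G a n) := by
      intro a n
      induction n with
      | zero => rfl
      | succ n ih =>
        refine Eq.trans (congrArg (fun z : Part ℕ => z >>= fun i =>
          Part.some (H (Nat.pair a (Nat.pair n i)))) ih) ?_
        exact Part.bind_some _ _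
    exact key p.unpair.1 p.unpair.2
  · rintro ⟨a, n⟩
    have e : encode (a, n) = Nat.pair (encode a) n := rfl
    rw [e]
    simp only [Nat.unpair_pair]
    induction n with
    | zero => exact hF' a
    | succ n ih =>
      have ih' := ih rfl
      show H (Nat.pair (encode a) (Nat.pair n (G (encode a) n))) = _
      rw [ih']
      exact hH' (a, n, _)

theorem R.find {t : α × ℕ → Bool} (ht : R O t) (hex : ∀ a, ∃ w, t (a, w) = true) :
    R O (fun a => Nat.find (hex a)) := by
  obtain ⟨T, hT, hT'⟩ := ht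
  let D : ℕ → ℕ := fun n => encode (decode (α := α) n)
  have hD : Primrec D := Primrec.encode.comp Primrec.decode
  let g : ℕ → ℕ := fun z => Nat.pair (D z.unpair.1 - 1) z.unpair.2
  have hg : Primrec g := Primrec₂.natPair.comp
    (Primrec.nat_sub.comp (hD.comp (Primrec.fst.comp Primrec.unpair)) (Primrec.const 1))
    (Primrec.snd.comp Primrec.unpair)
  let k : ℕ → ℕ := fun u => if D u.unpair.1.unpair.1 = 0 then 0 else 1 - u.unpair.2
  have hk : Primrec k := by
    refine Primrec.ite ?_ (Primrec.const 0) (Primrec.nat_sub.comp (Primrec.const 1)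
      (Primrec.snd.comp Primrec.unpair))
    exact Primrec.eq.comp (hD.comp (Primrec.fst.comp (Primrec.unpair.comp
      (Primrec.fst.comp Primrec.unpair)))) (Primrec.const 0)
  let T2 : ℕ → ℕ := fun z => k (Nat.pair z (T (g z)))
  have hT2 : Nat.RecursiveIn O (fun n => Part.some (T2 n)) :=
    nat_comp (f := k) (h := fun z => Nat.pair z (T (g z))) (nat_prim hk)
      (nat_pair (f := fun z => z) (h := fun z => T (g z)) (nat_prim Primrec.id)
        (nat_comp (f := T) (h := g) hT (nat_prim hg)))
  have hT2v : ∀ n w, T2 (Nat.pair n w) =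
      if D n = 0 then 0 else 1 - T (Nat.pair (D n - 1) w) := by
    intro n w
    simp only [T2, k, g, Nat.unpair_pair]
  have hDa : ∀ a : α, D (encode a) = encode a + 1 := fun a => by simp [D]
  have hval : ∀ a w, T2 (Nat.pair (encode a) w) = 0 ↔ t (a, w) = true := by
    intro a w
    have h1 : T (Nat.pair (encode a) w) = encode (t (a, w)) := hT' (a, w)
    rw [hT2v, hDa, if_neg (Nat.succ_ne_zero _), Nat.add_sub_cancel, h1]
    cases t (a, w) <;> simp
  have hall : ∀ n, ∃ w, T2 (Nat.pair n w) = 0 := by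
    intro n
    by_cases h0 : D n = 0
    · exact ⟨0, by rw [hT2v, if_pos h0]⟩
    · cases hd : decode (α := α) n with
      | none => exact absurd (by simp [D, hd]) h0
      | some a =>
        obtain ⟨w, hw⟩ := hex a
        refine ⟨w, ?_⟩
        have h1 := (hval a w).2 hw
        have h2 : D n = D (encode a) := by simp [D, hd]
        rw [hT2v] at h1 ⊢
        rw [h2]
        exact h1
  refine ⟨fun n => Nat.find (hall n), ?_, fun a => ?_⟩
  · refine (Nat.RecursiveIn.rfind hT2).of_eq fun n => ?_
    refine Part.eq_some_iff.2 ((Nat.mem_rfind).2 ⟨?_, fun {m} hm => ?_⟩)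
    · have := Nat.find_spec (hall n)
      simp [this]
    · have := Nat.find_min (hall n) hm
      simp [this]
  · have e : encode (Nat.find (hex a)) = Nat.find (hex a) := rfl
    rw [e]
    refine (Nat.find_eq_iff _).2 ⟨(hval a _).2 (Nat.find_spec (hex a)), fun m hm h => ?_⟩
    exact Nat.find_min (hex a) hm ((hval a m).1 h)

end tools

/-! ### primitive recursive parts -/

theorem dec_prim : Primrec dec := by
  unfold dec
  exact Primrec.option_getD.comp Primrec.decode (Primrec.const ([], [], 0))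

theorem phiS_prim : Primrec (fun p : List Bool × ℕ × ℕ => PhiS p.1 p.2.1 p.2.2) := by
  unfold PhiS
  refine Primrec.list_head?.comp ?_
  refine Primrec.listFilterMap (Primrec.list_range.comp
    (Primrec.succ.comp (Primrec.list_length.comp Primrec.fst))) ?_
  have h1 : Primrec fun q : (List Bool × ℕ × ℕ) × ℕ => q.2.unpair :=
    Primrec.unpair.comp Primrec.snd
  have h2 : Primrec fun q : (List Bool × ℕ × ℕ) × ℕ =>
      encode (q.1.1.take q.2.unpair.2) :=
    Primrec.encode.comp (Primrec.list_take.comp (Primrec.snd.comp h1)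
      (Primrec.fst.comp Primrec.fst))
  exact Nat.Partrec.Code.primrec_evaln.comp (Primrec.pair (Primrec.pair (Primrec.fst.comp h1)
    ((Primrec.ofNat Nat.Partrec.Code).comp (Primrec.fst.comp (Primrec.snd.comp Primrec.fst))))
    (Primrec₂.natPair.comp h2 (Primrec.snd.comp (Primrec.snd.comp Primrec.fst))))

/-- the type of the arguments of the search for witnesses -/
abbrev L : Type := List Bool × Bool × ℕ × ℕ

/-- the decision of `Wit` -/
def wb (p : L × ℕ) : Bool :=
  decide ((dec p.2).1.take (p.1.1.length + 1) = p.1.1 ++ [p.1.2.1]) &&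
  (decide ((List.range (dec p.2).2.1.length).map (fun n => PhiS (dec p.2).1 p.1.2.2.1 n) =
    (dec p.2).2.1.map fun b => some b.toNat) &&
  decide (PhiS (dec p.2).2.1 p.1.2.2.2 p.1.1.length = some (dec p.2).2.2))

theorem wb_iff (σ : List Bool) (b : Bool) (e₁ e₂ w : ℕ) :
    wb ((σ, b, e₁, e₂), w) = true ↔ Wit σ b e₁ e₂ w := by
  unfold wb Wit
  rw [Bool.and_eq_true, Bool.and_eq_true, decide_eq_true_iff, decide_eq_true_iff,
    decide_eq_true_iff]
  refine and_congr ?_ (and_congr ?_ Iff.rfl)
  · rw [List.prefix_iff_eq_take, eq_comm]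
    simp
  · constructor
    · intro h n hn
      have h1 := congrArg (fun l : List (Option ℕ) => l[n]?) h
      simp only [List.getElem?_map, List.getElem?_range hn, Option.map_some] at h1
      rw [List.getElem?_eq_getElem hn, Option.map_some] at h1
      rw [List.getD_eq_getElem?_getD, List.getElem?_eq_getElem hn, Option.getD_some]
      exact Option.some.inj h1
    · intro h
      apply List.ext_getElem
      · simp
      · intro n h1 h2
        have hn : n < (dec w).2.1.length := by simpa using h2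
        have h3 := h n hn
        rw [List.getD_eq_getElem?_getD, List.getElem?_eq_getElem hn, Option.getD_some] at h3
        simpa using h3

theorem wb_prim : Primrec wb := by
  unfold wb
  have hd : Primrec fun p : L × ℕ => dec p.2 := dec_prim.comp Primrec.snd
  have hd1 : Primrec fun p : L × ℕ => (dec p.2).1 := Primrec.fst.comp hd
  have hd2 : Primrec fun p : L × ℕ => (dec p.2).2.1 := Primrec.fst.comp (Primrec.snd.comp hd)
  have hd3 : Primrec fun p : L × ℕ => (dec p.2).2.2 := Primrec.snd.comp (Primrec.snd.comp hd)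
  have hσ : Primrec fun p : L × ℕ => p.1.1 := Primrec.fst.comp Primrec.fst
  have hb : Primrec fun p : L × ℕ => p.1.2.1 :=
    Primrec.fst.comp (Primrec.snd.comp Primrec.fst)
  have h1' : Primrec fun p : L × ℕ => p.1.2.2.1 :=
    Primrec.fst.comp (Primrec.snd.comp (Primrec.snd.comp Primrec.fst))
  have h2' : Primrec fun p : L × ℕ => p.1.2.2.2 :=
    Primrec.snd.comp (Primrec.snd.comp (Primrec.snd.comp Primrec.fst))
  have hlen : Primrec fun p : L × ℕ => p.1.1.length := Primrec.list_length.comp hσ
  refine Primrec.and.comp ?_ (Primrec.and.comp ?_ ?_)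
  · refine (Primrec.eq.comp ?_ ?_).decide
    · exact Primrec.list_take.comp (Primrec.succ.comp hlen) hd1
    · exact Primrec.list_concat.comp hσ hb
  · refine (Primrec.eq.comp ?_ ?_).decide
    · refine Primrec.list_map (Primrec.list_range.comp (Primrec.list_length.comp hd2)) ?_
      exact phiS_prim.comp (Primrec.pair (hd1.comp Primrec.fst)
        (Primrec.pair (h1'.comp Primrec.fst) Primrec.snd))
    · refine Primrec.list_map hd2 ?_
      have : Primrec fun b : Bool => some b.toNat := Primrec.dom_finite _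
      exact this.comp Primrec.snd
  · refine (Primrec.eq.comp ?_ ?_).decide
    · exact phiS_prim.comp (Primrec.pair hd2 (Primrec.pair h2' hlen))
    · exact Primrec.option_some.comp hd3

/-- the predicate which is asked of the oracle -/
def PP (n : ℕ) : Prop := ∃ w, wb ((decode (α := L) n).getD ([], false, 0, 0), w) = true

theorem PP_re : REPred PP := by
  have h1 : Primrec₂ fun n w : ℕ => wb ((decode (α := L) n).getD ([], false, 0, 0), w) := by
    refine wb_prim.comp (Primrec.pair ?_ Primrec.snd)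
    exact Primrec.option_getD.comp (Primrec.decode.comp Primrec.fst)
      (Primrec.const ([], false, 0, 0))
  have h2 : Partrec fun n : ℕ => Nat.rfind fun w =>
      Part.some (wb ((decode (α := L) n).getD ([], false, 0, 0), w)) :=
    Partrec.rfind h1.to_comp.partrec₂
  have h3 := h2.map (Computable.const ()).to₂
  refine h3.of_eq fun n => ?_
  apply Part.ext
  intro u
  simp only [Part.mem_map_iff, Part.mem_assert_iff, Part.mem_some_iff]
  constructor
  · rintro ⟨w, hw, -⟩
    have := (Nat.mem_rfind.1 hw).1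
    exact ⟨⟨w, by simpa using this⟩, trivial⟩
  · rintro ⟨⟨w, hw⟩, -⟩
    have hdom : (Nat.rfind fun w =>
        Part.some (wb ((decode (α := L) n).getD ([], false, 0, 0), w))).Dom :=
      Nat.rfind_dom.2 ⟨w, by simpa using hw, fun _ => trivial⟩
    obtain ⟨m, hm⟩ := Part.dom_iff_mem.1 hdom
    exact ⟨m, hm, trivial⟩

/-! ### the construction -/

section main

variable {S : Set ℕ} {T : ℕ → Set ℕ}

theorem R_orc : R {chr S} (fun n : ℕ => decide (n ∈ S)) := by
  have h1 : R {chr S} (fun n : ℕ => if n ∈ S then 1 else 0) := by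
    refine ⟨fun n => if n ∈ S then 1 else 0, ?_, fun n => rfl⟩
    exact Nat.RecursiveIn.oracle _ rfl
  have h2 : R {chr S} (fun n : ℕ => decide (n = 1)) :=
    R.of_prim (Primrec.eq.comp Primrec.id (Primrec.const 1)).decide
  have h3 := h2.comp h1
  have e : (fun n : ℕ => decide ((if n ∈ S then 1 else 0) = 1)) = fun n : ℕ => decide (n ∈ S) := by
    funext n
    by_cases hn : n ∈ S <;> simp [hn]
  rw [e] at h3
  exact h3

theorem R_ex (hre : ∀ P : ℕ → Prop, REPred P → ∃ h : ℕ → ℕ, Computable h ∧ ∀ n, P n ↔ h n ∈ S) :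
    R {chr S} (fun a : L => decide (∃ w, Wit a.1 a.2.1 a.2.2.1 a.2.2.2 w)) := by
  obtain ⟨h, hh, hP⟩ := hre PP PP_re
  have h1 : R {chr S} (fun a : L => decide (h (encode a) ∈ S)) :=
    R_orc.comp (R.of_comp (hh.comp Computable.encode))
  have e : (fun a : L => decide (h (encode a) ∈ S)) =
      fun a : L => decide (∃ w, Wit a.1 a.2.1 a.2.2.1 a.2.2.2 w) := by
    funext a
    rw [decide_eq_decide, ← hP]
    unfold PP
    simp only [encodek, Option.getD_some]
    exact exists_congr fun w => wb_iff _ _ _ _ _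
  rw [e] at h1
  exact h1

theorem R_wit (hre : ∀ P : ℕ → Prop, REPred P → ∃ h : ℕ → ℕ, Computable h ∧ ∀ n, P n ↔ h n ∈ S) :
    R {chr S} (fun a : L => wit a.1 a.2.1 a.2.2.1 a.2.2.2) := by
  have h1 : R {chr S} (fun q : L × ℕ =>
      bif decide (∃ w, Wit q.1.1 q.1.2.1 q.1.2.2.1 q.1.2.2.2 w) then wb q else decide (q.2 = 0)) :=
    R.cond ((R_ex hre).comp R.fst) (R.of_prim wb_prim)
      (R.of_prim (Primrec.eq.comp Primrec.snd (Primrec.const 0)).decide)
  have hex : ∀ a : L, ∃ w, (fun q : L × ℕ =>
      bif decide (∃ w, Wit q.1.1 q.1.2.1 q.1.2.2.1 q.1.2.2.2 w) then wb q else decide (q.2 = 0))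
        (a, w) = true := by
    intro a
    by_cases h : ∃ w, Wit a.1 a.2.1 a.2.2.1 a.2.2.2 w
    · obtain ⟨w, hw⟩ := h
      refine ⟨w, ?_⟩
      have h2 : decide (∃ w, Wit a.1 a.2.1 a.2.2.1 a.2.2.2 w) = true :=
        decide_eq_true ⟨w, hw⟩
      simp only [h2, cond_true]
      exact (wb_iff a.1 a.2.1 a.2.2.1 a.2.2.2 w).2 hw
    · refine ⟨0, ?_⟩
      have h2 : decide (∃ w, Wit a.1 a.2.1 a.2.2.1 a.2.2.2 w) = false := decide_eq_false h
      simp only [h2, cond_false, decide_true]
  have h3 := R.find h1 hex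
  have e : (fun a => Nat.find (hex a)) = fun a : L => wit a.1 a.2.1 a.2.2.1 a.2.2.2 := by
    funext a
    unfold wit
    by_cases h : ∃ w, Wit a.1 a.2.1 a.2.2.1 a.2.2.2 w
    · rw [dif_pos h]
      have h2 : decide (∃ w, Wit a.1 a.2.1 a.2.2.1 a.2.2.2 w) = true := decide_eq_true h
      refine (Nat.find_eq_iff _).2 ⟨?_, fun m hm hc => ?_⟩
      · simp only [h2, cond_true]
        exact (wb_iff a.1 a.2.1 a.2.2.1 a.2.2.2 _).2 (Nat.find_spec h)
      · simp only [h2, cond_true] at hc
        exact Nat.find_min h hm ((wb_iff a.1 a.2.1 a.2.2.1 a.2.2.2 m).1 hc)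
    · rw [dif_neg h]
      have h2 : decide (∃ w, Wit a.1 a.2.1 a.2.2.1 a.2.2.2 w) = false := decide_eq_false h
      refine (Nat.find_eq_iff _).2 ⟨?_, fun m hm _ => absurd hm (Nat.not_lt_zero m)⟩
      simp only [h2, cond_false, decide_true]
  rw [e] at h3
  exact h3

theorem segB_zero (X : Set ℕ) : segB X 0 = [] := rfl

theorem segB_succ (X : Set ℕ) (m : ℕ) : segB X (m + 1) = segB X m ++ [decide (m ∈ X)] := by
  unfold segB
  rw [List.range_succ, List.map_append]
  rfl

theorem R_seg (hT : TRed {z | z.unpair.2 ∈ T z.unpair.1} S) :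
    R {chr S} (fun p : ℕ × ℕ => segB (T p.1) p.2) := by
  have h0 : Nat.RecursiveIn {chr S} (chr {z | z.unpair.2 ∈ T z.unpair.1}) :=
    RecursiveIn.iff_nat.1 hT
  have h1 : R {chr S} (fun n : ℕ => if n ∈ {z : ℕ | z.unpair.2 ∈ T z.unpair.1} then 1 else 0) :=
    ⟨fun n => if n ∈ {z : ℕ | z.unpair.2 ∈ T z.unpair.1} then 1 else 0, h0, fun n => rfl⟩
  have h2 : R {chr S} (fun n : ℕ => decide (n = 1)) :=
    R.of_prim (Primrec.eq.comp Primrec.id (Primrec.const 1)).decide
  have h3 : R {chr S} (fun p : ℕ × ℕ => Nat.pair p.1 p.2) :=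
    R.of_prim (Primrec₂.natPair.comp Primrec.fst Primrec.snd)
  have h4 := h2.comp (h1.comp h3)
  have e : (fun p : ℕ × ℕ => decide ((if Nat.pair p.1 p.2 ∈ {z : ℕ | z.unpair.2 ∈ T z.unpair.1}
      then 1 else 0) = 1)) = fun p : ℕ × ℕ => decide (p.2 ∈ T p.1) := by
    funext p
    by_cases hn : p.2 ∈ T p.1 <;> simp [hn]
  rw [e] at h4
  have h5 : R {chr S} (fun q : ℕ × ℕ × List Bool => q.2.2 ++ [decide (q.2.1 ∈ T q.1)]) := by
    have h6 : R {chr S} (fun q : List Bool × Bool => q.1 ++ [q.2]) :=
      R.of_prim (Primrec.list_concat.comp Primrec.fst Primrec.snd)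
    exact h6.comp ((R.snd.comp R.snd).pair (h4.comp (R.fst.pair (R.fst.comp R.snd))))
  have h6 : R {chr S} (fun _ : ℕ => ([] : List Bool)) := R.of_prim (Primrec.const [])
  have h7 := R.prec h6 h5
  have e2 : (fun p : ℕ × ℕ => (Nat.rec ([] : List Bool)
      (fun n ih => ih ++ [decide (n ∈ T p.1)]) p.2 : List Bool)) =
      fun p : ℕ × ℕ => segB (T p.1) p.2 := by
    funext p
    obtain ⟨i, m⟩ := p
    show (Nat.rec ([] : List Bool) (fun n ih => ih ++ [decide (n ∈ T i)]) m : List Bool) =
      segB (T i) m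
    induction m with
    | zero => rfl
    | succ m ih =>
      rw [segB_succ, ← ih]
  rw [← e2]
  exact h7

theorem R_step (hre : ∀ P : ℕ → Prop, REPred P → ∃ h : ℕ → ℕ, Computable h ∧ ∀ n, P n ↔ h n ∈ S)
    (hT : TRed {z | z.unpair.2 ∈ T z.unpair.1} S) :
    R {chr S} (fun p : List Bool × ℕ × ℕ × ℕ => step T p.1 p.2.1 p.2.2.1 p.2.2.2) := by
  have hσ : R {chr S} (fun p : List Bool × ℕ × ℕ × ℕ => p.1) := R.fst
  have hi : R {chr S} (fun p : List Bool × ℕ × ℕ × ℕ => p.2.1) := R.fst.comp R.snd
  have hL : ∀ b : Bool, R {chr S} (fun p : List Bool × ℕ × ℕ × ℕ =>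
      ((p.1, b, p.2.2.1, p.2.2.2) : L)) := fun b =>
    R.of_prim (Primrec.pair Primrec.fst (Primrec.pair (Primrec.const b)
      (Primrec.pair (Primrec.fst.comp (Primrec.snd.comp Primrec.snd))
        (Primrec.snd.comp (Primrec.snd.comp Primrec.snd)))))
  have hex : ∀ b : Bool, R {chr S} (fun p : List Bool × ℕ × ℕ × ℕ =>
      decide (∃ w, Wit p.1 b p.2.2.1 p.2.2.2 w)) := fun b => (R_ex hre).comp (hL b)
  have hw : ∀ b : Bool, R {chr S} (fun p : List Bool × ℕ × ℕ × ℕ =>
      dec (wit p.1 b p.2.2.1 p.2.2.2)) := fun b =>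
    (R.of_prim dec_prim).comp ((R_wit hre).comp (hL b))
  have hseg : ∀ b : Bool, R {chr S} (fun p : List Bool × ℕ × ℕ × ℕ =>
      segB (T p.2.1) (dec (wit p.1 b p.2.2.1 p.2.2.2)).2.1.length) := fun b =>
    (R_seg hT).comp (hi.pair ((R.of_prim Primrec.list_length).comp
      (R.fst.comp (R.snd.comp (hw b)))))
  have heq : ∀ b : Bool, R {chr S} (fun p : List Bool × ℕ × ℕ × ℕ =>
      decide ((dec (wit p.1 b p.2.2.1 p.2.2.2)).2.1 =
        segB (T p.2.1) (dec (wit p.1 b p.2.2.1 p.2.2.2)).2.1.length)) := by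
    intro b
    have h1 : R {chr S} (fun q : List Bool × List Bool => decide (q.1 = q.2)) :=
      R.of_prim (Primrec.eq.comp Primrec.fst Primrec.snd).decide
    exact h1.comp ((R.fst.comp (R.snd.comp (hw b))).pair (hseg b))
  have hz : R {chr S} (fun p : List Bool × ℕ × ℕ × ℕ =>
      decide ((dec (wit p.1 false p.2.2.1 p.2.2.2)).2.2 = 0)) := by
    have h1 : R {chr S} (fun q : ℕ => decide (q = 0)) :=
      R.of_prim (Primrec.eq.comp Primrec.id (Primrec.const 0)).decide
    exact h1.comp (R.snd.comp (R.snd.comp (hw false)))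
  have happ : ∀ b : Bool, R {chr S} (fun p : List Bool × ℕ × ℕ × ℕ => p.1 ++ [b]) := fun b =>
    R.of_prim (Primrec.list_concat.comp Primrec.fst (Primrec.const b))
  have hfin := R.cond (hex false) (R.cond (hex true) (R.cond (heq false)
    (R.cond (heq true) (R.cond hz (R.fst.comp (hw true)) (R.fst.comp (hw false)))
      (R.fst.comp (hw true))) (R.fst.comp (hw false))) (happ true)) (happ false)
  have e : (fun p : List Bool × ℕ × ℕ × ℕ => step T p.1 p.2.1 p.2.2.1 p.2.2.2) =
      fun p : List Bool × ℕ × ℕ × ℕ =>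
      bif decide (∃ w, Wit p.1 false p.2.2.1 p.2.2.2 w) then
        bif decide (∃ w, Wit p.1 true p.2.2.1 p.2.2.2 w) then
          bif decide ((dec (wit p.1 false p.2.2.1 p.2.2.2)).2.1 =
              segB (T p.2.1) (dec (wit p.1 false p.2.2.1 p.2.2.2)).2.1.length) then
            bif decide ((dec (wit p.1 true p.2.2.1 p.2.2.2)).2.1 =
                segB (T p.2.1) (dec (wit p.1 true p.2.2.1 p.2.2.2)).2.1.length) then
              bif decide ((dec (wit p.1 false p.2.2.1 p.2.2.2)).2.2 = 0) then
                (dec (wit p.1 true p.2.2.1 p.2.2.2)).1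
              else (dec (wit p.1 false p.2.2.1 p.2.2.2)).1
            else (dec (wit p.1 true p.2.2.1 p.2.2.2)).1
          else (dec (wit p.1 false p.2.2.1 p.2.2.2)).1
        else p.1 ++ [true]
      else p.1 ++ [false] := by
    funext p
    unfold step
    by_cases a1 : ∃ w, Wit p.1 false p.2.2.1 p.2.2.2 w
    · rw [if_neg (not_not.2 a1), decide_eq_true a1, cond_true]
      by_cases a2 : ∃ w, Wit p.1 true p.2.2.1 p.2.2.2 w
      · rw [if_neg (not_not.2 a2), decide_eq_true a2, cond_true]
        by_cases a3 : (dec (wit p.1 false p.2.2.1 p.2.2.2)).2.1 =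
            segB (T p.2.1) (dec (wit p.1 false p.2.2.1 p.2.2.2)).2.1.length
        · rw [if_neg (not_not.2 a3), decide_eq_true a3, cond_true]
          by_cases a4 : (dec (wit p.1 true p.2.2.1 p.2.2.2)).2.1 =
              segB (T p.2.1) (dec (wit p.1 true p.2.2.1 p.2.2.2)).2.1.length
          · rw [if_neg (not_not.2 a4), decide_eq_true a4, cond_true]
            by_cases a5 : (dec (wit p.1 false p.2.2.1 p.2.2.2)).2.2 = 0
            · rw [if_pos a5, decide_eq_true a5, cond_true]
            · rw [if_neg a5, decide_eq_false a5, cond_false]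
          · rw [if_pos a4, decide_eq_false a4, cond_false]
        · rw [if_pos a3, decide_eq_false a3, cond_false]
      · rw [if_pos a2, decide_eq_false a2, cond_false]
    · rw [if_pos a1, decide_eq_false a1, cond_false]
  rw [e]
  exact hfin

theorem R_sigma (hre : ∀ P : ℕ → Prop, REPred P → ∃ h : ℕ → ℕ, Computable h ∧ ∀ n, P n ↔ h n ∈ S)
    (hT : TRed {z | z.unpair.2 ∈ T z.unpair.1} S) : R {chr S} (sigma T) := by
  have h1 : R {chr S} (fun q : ℕ × ℕ × List Bool =>
      step T q.2.2 q.2.1.unpair.1 q.2.1.unpair.2.unpair.1 q.2.1.unpair.2.unpair.2) := by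
    have h2 : R {chr S} (fun q : ℕ × ℕ × List Bool =>
        ((q.2.2, q.2.1.unpair.1, q.2.1.unpair.2.unpair.1, q.2.1.unpair.2.unpair.2) :
          List Bool × ℕ × ℕ × ℕ)) := by
      have hs : Primrec fun q : ℕ × ℕ × List Bool => q.2.1.unpair :=
        Primrec.unpair.comp (Primrec.fst.comp Primrec.snd)
      have hs2 : Primrec fun q : ℕ × ℕ × List Bool => q.2.1.unpair.2.unpair :=
        Primrec.unpair.comp (Primrec.snd.comp hs)
      exact R.of_prim (Primrec.pair (Primrec.snd.comp Primrec.snd)
        (Primrec.pair (Primrec.fst.comp hs) (Primrec.pair (Primrec.fst.comp hs2)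
          (Primrec.snd.comp hs2))))
    exact (R_step hre hT).comp h2
  have h0 : R {chr S} (fun _ : ℕ => ([] : List Bool)) := R.of_prim (Primrec.const [])
  have h3 := R.prec h0 h1
  have h4 : R {chr S} (fun s : ℕ => ((0 : ℕ), s)) :=
    R.of_prim (Primrec.pair (Primrec.const 0) Primrec.id)
  have h5 := h3.comp h4
  have e : (fun s : ℕ => (Nat.rec ([] : List Bool) (fun s ih =>
      step T ih s.unpair.1 s.unpair.2.unpair.1 s.unpair.2.unpair.2) s : List Bool)) = sigma T := by
    funext s
    induction s with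
    | zero => rfl
    | succ s ih =>
      show step T _ _ _ _ = step T (sigma T s) _ _ _
      rw [← ih]
  rw [← e]
  exact h5

end main

end P_D2

open P_D2 in
/-- The construction is computable in `O`. -/
theorem prf_d2 : S_d2 := by
  classical
  intro O T hre hT
  have h1 := R_sigma hre hT
  have h2 : R {chr O} (fun n : ℕ => (sigma T (n + 1)).getD n false) := by
    have h3 : R {chr O} (fun q : List Bool × ℕ => q.1.getD q.2 false) :=
      R.of_prim ((Primrec.list_getD false).comp Primrec.fst Primrec.snd)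
    exact h3.comp ((h1.comp (R.of_prim Primrec.succ)).pair (R.of_prim Primrec.id))
  have h3 : R {chr O} (fun b : Bool => b.toNat) := R.of_prim (Primrec.dom_finite _)
  obtain ⟨F, hF, hF'⟩ := h3.comp h2
  refine RecursiveIn.iff_nat.2 (hF.of_eq fun n => ?_)
  have h4 : F n = ((sigma T (n + 1)).getD n false).toNat := hF' n
  unfold chr
  rw [h4]
  congr 1
  by_cases hn : n ∈ Dset T
  · rw [if_pos hn]
    have hn' : (sigma T (n + 1)).getD n false = true := hn
    rw [hn']
    rfl
  · rw [if_neg hn]
    have hn' : (sigma T (n + 1)).getD n false = false := by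
      have h5 : ¬ (sigma T (n + 1)).getD n false = true := hn
      simpa using h5
    rw [hn']
    rfl

end Pool.Agent.N636.TD
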