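import Mathlib
import Pool.Agent.N636.TD.Stm

/-!
# Uniform reductions to the Turing jump

`prf_jb : S_jb`, `prf_maps : Maps`, `prf_re : S_re`.
-/

set_option autoImplicit false
set_option maxHeartbeats 400000

namespace Pool.Agent.N636.TD

open Pool.Agent.N636.SF (seg attempt Phi jump IsIndex cons)

namespace P_JB

open Nat.Partrec (Code)

/-- The oracle computation halts iff some attempt is successful. -/
theorem mem_jump (X : Set ℕ) (e : ℕ) :
    e ∈ jump X ↔ ∃ u y, attempt X e e u = some y := by
  classical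
  constructor
  · rintro ⟨y, u, hu, -⟩
    exact ⟨u, y, hu⟩
  · intro h
    have h' : ∃ u, attempt X e e u ≠ none := by
      obtain ⟨u, y, hu⟩ := h
      exact ⟨u, by rw [hu]; simp⟩
    obtain ⟨y, hy⟩ := Option.ne_none_iff_exists'.1 (Nat.find_spec h')
    refine ⟨y, Nat.find h', hy, fun u' hu' => ?_⟩
    have := Nat.find_min h' hu'
    simpa using this

/-- The same with the evaluation. -/
theorem mem_jump' (X : Set ℕ) (e : ℕ) :
    e ∈ jump X ↔ ∃ m, (Code.eval (Denumerable.ofNat Code e) (Nat.pair (seg X m) e)).Dom := by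
  rw [mem_jump]
  constructor
  · rintro ⟨u, y, hu⟩
    refine ⟨u.unpair.2, Part.dom_iff_mem.2 ⟨y, Code.evaln_complete.2 ⟨u.unpair.1, ?_⟩⟩⟩
    exact hu
  · rintro ⟨m, hm⟩
    obtain ⟨y, hy⟩ := Part.dom_iff_mem.1 hm
    obtain ⟨s, hs⟩ := Code.evaln_complete.1 hy
    refine ⟨Nat.pair s m, y, ?_⟩
    unfold attempt
    rw [Nat.unpair_pair]
    exact hs

end P_JB

theorem prf_jb : S_jb := by
  intro f hf
  have hF : Partrec fun w : ℕ => f (w.unpair.1, w.unpair.2.unpair.1) := by
    apply hf.comp
    apply Computable.pair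
    · exact (Primrec.fst.comp Primrec.unpair).to_comp
    · exact (Primrec.fst.comp (Primrec.unpair.comp (Primrec.snd.comp Primrec.unpair))).to_comp
  obtain ⟨c, hc⟩ := Nat.Partrec.Code.exists_code.1 (Partrec.nat_iff.1 hF)
  refine ⟨fun z => Encodable.encode (Nat.Partrec.Code.curry c z), ?_, ?_⟩
  · apply Primrec.to_comp
    exact Primrec.encode.comp (Nat.Partrec.Code.primrec₂_curry.comp (Primrec.const c) Primrec.id)
  · intro X z
    rw [P_JB.mem_jump']
    simp only [Denumerable.ofNat_encode, Nat.Partrec.Code.eval_curry, hc, Nat.unpair_pair]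

namespace P_JB

open Nat.Partrec (Code)

/-- Reductions for computable searches. -/
theorem search (p : ℕ → ℕ → ℕ → Bool)
    (hp : Computable fun w : (ℕ × ℕ) × ℕ => p w.1.1 w.1.2 w.2) :
    ∃ t : ℕ → ℕ, Computable t ∧
      ∀ (X : Set ℕ) (z : ℕ), t z ∈ jump X ↔ ∃ m s, p z (seg X m) s = true := by
  have h1 : Partrec fun q : ℕ × ℕ =>
      Nat.rfind fun s => (Part.some (p q.1 q.2 s) : Part Bool) := by
    apply Partrec.rfind
    exact hp.partrec
  obtain ⟨t, ht, h⟩ := prf_jb _ h1
  refine ⟨t, ht, fun X z => ?_⟩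
  rw [h X z]
  refine exists_congr fun m => ?_
  rw [Nat.rfind_dom]
  constructor
  · rintro ⟨s, hs, -⟩
    exact ⟨s, (Part.mem_some_iff.1 hs).symm⟩
  · rintro ⟨s, hs⟩
    exact ⟨s, Part.mem_some_iff.2 hs.symm, fun {n} _ => trivial⟩

/-- The list of booleans coded by a number. -/
noncomputable def ls (a : ℕ) : List Bool := (Encodable.decode a).getD []

/-- The entries of the list coded by a number. -/
noncomputable def get (a x : ℕ) : Option Bool := (ls a)[x]?

theorem ls_seg (X : Set ℕ) (m : ℕ) [DecidablePred fun i => i ∈ X] :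
    ls (seg X m) = (List.range m).map fun i => decide (i ∈ X) := by
  unfold ls seg
  rw [Encodable.encodek]
  simp only [Option.getD_some]
  apply List.map_congr_left
  intro i _
  congr

theorem get_seg (X : Set ℕ) (m x : ℕ) (b : Bool) :
    get (seg X m) x = some b ↔ x < m ∧ (b = true ↔ x ∈ X) := by
  classical
  unfold get
  rw [ls_seg X m]
  by_cases hx : x < m
  · simp only [List.getElem?_map, List.getElem?_range hx, Option.map_some, Option.some.injEq, hx,
      true_and]
    cases b <;> simp
  · simp [hx]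

theorem get_true (X : Set ℕ) (m x : ℕ) :
    get (seg X m) x = some true ↔ x < m ∧ x ∈ X := by
  rw [get_seg]; simp

theorem get_false (X : Set ℕ) (m x : ℕ) :
    get (seg X m) x = some false ↔ x < m ∧ x ∉ X := by
  rw [get_seg]; simp

section comp
variable {α : Type} [Primcodable α]

theorem ls_comp : Computable ls := by
  apply Primrec.to_comp
  exact Primrec.option_getD.comp Primrec.decode (Primrec.const [])

theorem get_comp₂ : Computable₂ get := by
  have : Computable₂ (fun (l : List Bool) (n : ℕ) => l[n]?) := Primrec.list_getElem?.to_comp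
  exact this.comp (ls_comp.comp Computable.fst) Computable.snd

theorem get_comp {f g : α → ℕ} (hf : Computable f) (hg : Computable g) :
    Computable fun x => get (f x) (g x) := get_comp₂.comp hf hg

theorem eq_comp {β : Type} [Primcodable β] [DecidableEq β] {f g : α → β} (hf : Computable f)
    (hg : Computable g) : Computable fun x => decide (f x = g x) := by
  have : Computable₂ fun a b : β => decide (a = b) := Primrec.eq.decide.to_comp
  exact this.comp hf hg

theorem and_comp {f g : α → Bool} (hf : Computable f)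
    (hg : Computable g) : Computable fun x => (f x && g x) := by
  have : Computable₂ fun a b : Bool => a && b := Primrec.and.to_comp
  exact this.comp hf hg

theorem u1_comp {f : α → ℕ} (hf : Computable f) : Computable fun x => (f x).unpair.1 :=
  Computable.fst.comp (Computable.unpair.comp hf)

theorem u2_comp {f : α → ℕ} (hf : Computable f) : Computable fun x => (f x).unpair.2 :=
  Computable.snd.comp (Computable.unpair.comp hf)

theorem pair_comp {f g : α → ℕ} (hf : Computable f) (hg : Computable g) :
    Computable fun x => Nat.pair (f x) (g x) := Primrec₂.natPair.to_comp.comp hf hg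

/-- Evaluation for `k` steps. -/
def evn (k e n : ℕ) : Option ℕ := Code.evaln k (Denumerable.ofNat Code e) n

theorem evn_comp {f g h : α → ℕ} (hf : Computable f) (hg : Computable g) (hh : Computable h) :
    Computable fun x => evn (f x) (g x) (h x) := by
  have he : Computable fun q : (ℕ × Code) × ℕ =>
      Code.evaln q.1.1 q.1.2 q.2 := Code.primrec_evaln.to_comp
  exact he.comp (Computable.pair (Computable.pair hf ((Computable.ofNat _).comp hg)) hh)

end comp

theorem evn_mem (e n y : ℕ) :
    y ∈ Code.eval (Denumerable.ofNat Code e) n ↔ ∃ k, evn k e n = some y :=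
  Code.evaln_complete

theorem evn_mono {k k' e n y : ℕ} (h : k ≤ k') (h1 : evn k e n = some y) : evn k' e n = some y :=
  Code.evaln_mono h h1

/-- The search for `an`. -/
noncomputable def pan (z a _s : ℕ) : Bool :=
  decide (get a z.unpair.1 = some true) && decide (get a z.unpair.2 = some true)

/-- The search for `ex`. -/
noncomputable def pex (z a s : ℕ) : Bool :=
  decide (evn s.unpair.2 z.unpair.1.unpair.1 s.unpair.1 = some 1) &&
    decide (((evn s.unpair.2 z.unpair.1.unpair.2 (Nat.pair s.unpair.1 z.unpair.2)).bind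
      fun y => get a y) = some false)

theorem pan_comp : Computable fun w : (ℕ × ℕ) × ℕ => pan w.1.1 w.1.2 w.2 := by
  have hz : Computable fun w : (ℕ × ℕ) × ℕ => w.1.1 := Computable.fst.comp Computable.fst
  have ha : Computable fun w : (ℕ × ℕ) × ℕ => w.1.2 := Computable.snd.comp Computable.fst
  unfold pan
  apply and_comp
  · exact eq_comp (get_comp ha (u1_comp hz)) (Computable.const _)
  · exact eq_comp (get_comp ha (u2_comp hz)) (Computable.const _)

theorem pex_comp : Computable fun w : (ℕ × ℕ) × ℕ => pex w.1.1 w.1.2 w.2 := by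
  have hz : Computable fun w : (ℕ × ℕ) × ℕ => w.1.1 := Computable.fst.comp Computable.fst
  have ha : Computable fun w : (ℕ × ℕ) × ℕ => w.1.2 := Computable.snd.comp Computable.fst
  have hs : Computable fun w : (ℕ × ℕ) × ℕ => w.2 := Computable.snd
  unfold pex
  apply and_comp
  · exact eq_comp (evn_comp (u2_comp hs) (u1_comp (u1_comp hz)) (u1_comp hs)) (Computable.const _)
  · refine eq_comp ?_ (Computable.const _)
    apply Computable.option_bind
    · exact evn_comp (u2_comp hs) (u2_comp (u1_comp hz)) (pair_comp (u1_comp hs) (u2_comp hz))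
    · exact get_comp (ha.comp Computable.fst) Computable.snd

theorem pex_iff (e c p a s : ℕ) : pex (Nat.pair (Nat.pair e c) p) a s = true ↔
    evn s.unpair.2 e s.unpair.1 = some 1 ∧
      ∃ y, evn s.unpair.2 c (Nat.pair s.unpair.1 p) = some y ∧ get a y = some false := by
  unfold pex
  rw [Bool.and_eq_true, decide_eq_true_iff, decide_eq_true_iff, Option.bind_eq_some_iff,
    Nat.unpair_pair, Nat.unpair_pair]

end P_JB

open P_JB in
theorem prf_maps : Maps where
  up := by
    obtain ⟨t, ht, h⟩ := search (fun x a _ => decide (get a x = some true)) (by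
      apply eq_comp _ (Computable.const _)
      exact get_comp (Computable.snd.comp Computable.fst) (Computable.fst.comp Computable.fst))
    refine ⟨t, ht, fun X x => ?_⟩
    rw [h]
    simp only [decide_eq_true_iff, get_true]
    exact ⟨fun ⟨_, _, _, h⟩ => h, fun h => ⟨x + 1, 0, Nat.lt_succ_self x, h⟩⟩
  ng := by
    obtain ⟨t, ht, h⟩ := search (fun x a _ => decide (get a x = some false)) (by
      apply eq_comp _ (Computable.const _)
      exact get_comp (Computable.snd.comp Computable.fst) (Computable.fst.comp Computable.fst))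
    refine ⟨t, ht, fun X x => ?_⟩
    rw [h]
    simp only [decide_eq_true_iff, get_false]
    exact ⟨fun ⟨_, _, _, h⟩ => h, fun h => ⟨x + 1, 0, Nat.lt_succ_self x, h⟩⟩
  an := by
    obtain ⟨t, ht, h⟩ := search pan pan_comp
    refine ⟨t, ht, fun X x y => ?_⟩
    rw [h]
    simp only [pan, decide_eq_true_iff, get_true, Bool.and_eq_true, Nat.unpair_pair]
    constructor
    · rintro ⟨_, _, ⟨_, h1⟩, ⟨_, h2⟩⟩
      exact ⟨h1, h2⟩
    · rintro ⟨h1, h2⟩
      exact ⟨x + y + 1, 0, ⟨by omega, h1⟩, ⟨by omega, h2⟩⟩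
  ex := by
    obtain ⟨t, ht, h⟩ := search pex pex_comp
    refine ⟨t, ht, fun X e c p g hg => ?_⟩
    rw [h]
    constructor
    · rintro ⟨m, s, hs⟩
      obtain ⟨h1, y, h2, h3⟩ := (pex_iff _ _ _ _ _).1 hs
      refine ⟨s.unpair.1, (evn_mem _ _ _).2 ⟨_, h1⟩, ?_⟩
      have h4 := (evn_mem _ _ _).2 ⟨_, h2⟩
      rw [← Part.mem_unique h4 (hg s.unpair.1)]
      exact ((get_false _ _ _).1 h3).2
    · rintro ⟨b, hb, hgb⟩
      obtain ⟨s1, h1⟩ := (evn_mem _ _ _).1 hb
      obtain ⟨s2, h2⟩ := (evn_mem _ _ _).1 (hg b)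
      refine ⟨g b + 1, Nat.pair b (max s1 s2), (pex_iff _ _ _ _ _).2 ⟨?_, g b, ?_, ?_⟩⟩
      · rw [Nat.unpair_pair]
        exact evn_mono (le_max_left _ _) h1
      · rw [Nat.unpair_pair]
        exact evn_mono (le_max_right _ _) h2
      · exact (get_false _ _ _).2 ⟨Nat.lt_succ_self _, hgb⟩
  we := by
    obtain ⟨t, ht, h⟩ := search (fun z _ s =>
      decide (evn s z.unpair.1 z.unpair.2 = some 1)) (by
        have hz : Computable fun w : (ℕ × ℕ) × ℕ => w.1.1 := Computable.fst.comp Computable.fst
        exact eq_comp (evn_comp Computable.snd (u1_comp hz) (u2_comp hz)) (Computable.const _))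
    refine ⟨t, ht, fun X e n => ?_⟩
    rw [h]
    simp only [decide_eq_true_iff, Nat.unpair_pair]
    constructor
    · rintro ⟨_, s, hs⟩
      exact (evn_mem _ _ _).2 ⟨s, hs⟩
    · intro hn
      obtain ⟨s, hs⟩ := (evn_mem _ _ _).1 hn
      exact ⟨0, s, hs⟩

theorem prf_re : S_re := by
  intro P hP
  have h1 : Partrec fun q : ℕ × ℕ =>
      (Part.assert (P q.1) fun _ => Part.some ()).map fun _ => (0 : ℕ) := by
    have h2 : Partrec fun q : ℕ × ℕ => (Part.assert (P q.1) fun _ => Part.some ()) :=
      Partrec.comp hP Computable.fst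
    exact h2.map (Computable.const 0).to₂
  obtain ⟨t, ht, h⟩ := prf_jb _ h1
  refine ⟨fun n => Nat.pair 1 (t n), ?_, fun n => ?_⟩
  · exact P_JB.pair_comp (Computable.const 1) ht
  · show P n ↔ (Nat.pair 1 (t n)).unpair.2 ∈ jump^[(Nat.pair 1 (t n)).unpair.1] ∅
    rw [Nat.unpair_pair]
    show P n ↔ t n ∈ jump^[1] ∅
    rw [Function.iterate_one, h]
    constructor
    · intro hn
      exact ⟨0, ⟨hn, trivial⟩⟩
    · rintro ⟨_, hn, _⟩
      exact hn

end Pool.Agent.N636.TD
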