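import Mathlib
import Pool.Agent.N636.TD.Stm

/-!
# Project TD, part REC (helper701): truth is uniformly reducible to `∅^(ω)`
-/

set_option autoImplicit false

namespace Pool.Agent.N636.TD

open Pool.Agent.N636.SF (seg attempt Phi jump IsIndex cons)

namespace P_REC

open Nat.Partrec (Code)

/-- One step of the recursion on Goedel numbers; `l` is the list of the values at smaller numbers. -/
def stp (cU cN cA cE c0 c1 : Code) (q : ℕ) (l : List (ℕ × Code)) : ℕ × Code :=
  if l.length.unpair.1 = 0 then (1, Code.curry c0 (Nat.pair q l.length.unpair.2))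
  else if l.length.unpair.1 = 1 then (1, Code.curry c1 (Nat.pair q l.length.unpair.2))
  else if l.length.unpair.1 = 2 then
    ((l.getD l.length.unpair.2 (0, Code.zero)).1 + 1,
      Code.comp cN (l.getD l.length.unpair.2 (0, Code.zero)).2)
  else if l.length.unpair.1 = 3 then
    ((l.getD l.length.unpair.2.unpair.1 (0, Code.zero)).1 +
        (l.getD l.length.unpair.2.unpair.2 (0, Code.zero)).1 + 1,
      Code.comp cA (Code.pair
        ((Code.comp cU)^[(l.getD l.length.unpair.2.unpair.2 (0, Code.zero)).1]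
          (l.getD l.length.unpair.2.unpair.1 (0, Code.zero)).2)
        ((Code.comp cU)^[(l.getD l.length.unpair.2.unpair.1 (0, Code.zero)).1]
          (l.getD l.length.unpair.2.unpair.2 (0, Code.zero)).2)))
  else if l.length.unpair.1 = 4 then
    ((l.getD l.length.unpair.2 (0, Code.zero)).1 + 2,
      Code.comp cN (Code.comp cE (Code.pair
        (Code.const (Nat.pair q.unpair.2
          (Encodable.encode (l.getD l.length.unpair.2 (0, Code.zero)).2))) Code.id)))
  else (0, Code.zero)

/-- The list of the first values. -/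
def lst (cU cN cA cE c0 c1 : Code) (q : ℕ) : ℕ → List (ℕ × Code)
  | 0 => []
  | n + 1 => lst cU cN cA cE c0 c1 q n ++ [stp cU cN cA cE c0 c1 q (lst cU cN cA cE c0 c1 q n)]

/-- The recursive function. -/
def fk (cU cN cA cE c0 c1 : Code) (q n : ℕ) : ℕ × Code :=
  stp cU cN cA cE c0 c1 q (lst cU cN cA cE c0 c1 q n)

lemma primrec_stp (cU cN cA cE c0 c1 : Code) : Primrec₂ (stp cU cN cA cE c0 c1) := by
  have hlen : Primrec fun a : ℕ × List (ℕ × Code) => a.2.length :=
    Primrec.list_length.comp Primrec.snd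
  have ht : Primrec fun a : ℕ × List (ℕ × Code) => a.2.length.unpair.1 :=
    Primrec.fst.comp (Primrec.unpair.comp hlen)
  have hr : Primrec fun a : ℕ × List (ℕ × Code) => a.2.length.unpair.2 :=
    Primrec.snd.comp (Primrec.unpair.comp hlen)
  have hr1 : Primrec fun a : ℕ × List (ℕ × Code) => a.2.length.unpair.2.unpair.1 :=
    Primrec.fst.comp (Primrec.unpair.comp hr)
  have hr2 : Primrec fun a : ℕ × List (ℕ × Code) => a.2.length.unpair.2.unpair.2 :=
    Primrec.snd.comp (Primrec.unpair.comp hr)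
  have hg : ∀ f : ℕ × List (ℕ × Code) → ℕ, Primrec f →
      Primrec fun a : ℕ × List (ℕ × Code) => a.2.getD (f a) (0, Code.zero) := fun f hf =>
    (Primrec.list_getD ((0, Code.zero) : ℕ × Code)).comp Primrec.snd hf
  have hcU : Primrec₂ fun (_ : ℕ × List (ℕ × Code)) (c : Code) => Code.comp cU c :=
    Code.primrec₂_comp.comp (Primrec.const cU) Primrec.snd
  have heq : ∀ k : ℕ, PrimrecPred fun a : ℕ × List (ℕ × Code) => a.2.length.unpair.1 = k :=
    fun k => Primrec.eq.comp ht (Primrec.const k)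
  refine Primrec.ite (heq 0) ?_ (Primrec.ite (heq 1) ?_ (Primrec.ite (heq 2) ?_
    (Primrec.ite (heq 3) ?_ (Primrec.ite (heq 4) ?_ (Primrec.const _)))))
  · exact Primrec.pair (Primrec.const 1) (Code.primrec₂_curry.comp (Primrec.const c0)
      (Primrec₂.natPair.comp Primrec.fst hr))
  · exact Primrec.pair (Primrec.const 1) (Code.primrec₂_curry.comp (Primrec.const c1)
      (Primrec₂.natPair.comp Primrec.fst hr))
  · exact Primrec.pair (Primrec.succ.comp (Primrec.fst.comp (hg _ hr)))
      (Code.primrec₂_comp.comp (Primrec.const cN) (Primrec.snd.comp (hg _ hr)))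
  · refine Primrec.pair (Primrec.succ.comp (Primrec.nat_add.comp (Primrec.fst.comp (hg _ hr1))
      (Primrec.fst.comp (hg _ hr2)))) (Code.primrec₂_comp.comp (Primrec.const cA)
        (Code.primrec₂_pair.comp ?_ ?_))
    · exact Primrec.nat_iterate (Primrec.fst.comp (hg _ hr2)) (Primrec.snd.comp (hg _ hr1)) hcU
    · exact Primrec.nat_iterate (Primrec.fst.comp (hg _ hr1)) (Primrec.snd.comp (hg _ hr2)) hcU
  · refine Primrec.pair (Primrec.succ.comp (Primrec.succ.comp (Primrec.fst.comp (hg _ hr))))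
      (Code.primrec₂_comp.comp (Primrec.const cN) (Code.primrec₂_comp.comp (Primrec.const cE)
        (Code.primrec₂_pair.comp ?_ (Primrec.const Code.id))))
    exact Code.primrec_const.comp (Primrec₂.natPair.comp
      (Primrec.snd.comp (Primrec.unpair.comp Primrec.fst))
      (Primrec.encode.comp (Primrec.snd.comp (hg _ hr))))

lemma primrec_lst (cU cN cA cE c0 c1 : Code) : Primrec₂ (lst cU cN cA cE c0 c1) := by
  have h : Primrec₂ fun (q : ℕ) (x : ℕ × List (ℕ × Code)) =>
      x.2 ++ [stp cU cN cA cE c0 c1 q x.2] := by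
    refine Primrec.list_append.comp (Primrec.snd.comp Primrec.snd) ?_
    refine Primrec.list_cons.comp ?_ (Primrec.const [])
    exact (primrec_stp cU cN cA cE c0 c1).comp Primrec.fst (Primrec.snd.comp Primrec.snd)
  refine (Primrec.nat_rec (Primrec.const ([] : List (ℕ × Code))) h).of_eq ?_
  intro q n
  induction n with
  | zero => rfl
  | succ n ih => simp only [lst, ← ih]

lemma primrec_fk (cU cN cA cE c0 c1 : Code) : Primrec₂ (fk cU cN cA cE c0 c1) :=
  (primrec_stp cU cN cA cE c0 c1).comp Primrec.fst (primrec_lst cU cN cA cE c0 c1)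

lemma lst_length (cU cN cA cE c0 c1 : Code) (q n : ℕ) :
    (lst cU cN cA cE c0 c1 q n).length = n := by
  induction n with
  | zero => rfl
  | succ n ih => simp [lst, ih]

lemma lst_getD (cU cN cA cE c0 c1 : Code) (q : ℕ) (d : ℕ × Code) (n i : ℕ) (h : i < n) :
    (lst cU cN cA cE c0 c1 q n).getD i d = fk cU cN cA cE c0 c1 q i := by
  induction n with
  | zero => omega
  | succ n ih =>
    rw [lst]
    by_cases hi : i < n
    · rw [List.getD_append _ _ _ _ (by rw [lst_length]; exact hi)]
      exact ih hi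
    · have : i = n := by omega
      subst this
      rw [List.getD_append_right _ _ _ _ (by rw [lst_length])]
      simp [lst_length, fk]

lemma lt_pair (k r : ℕ) (hk : 1 ≤ k) : r < Nat.pair k r := by
  have := Nat.add_le_pair k r
  omega

section
variable (cU cN cA cE c0 c1 : Code)

lemma fk0 (q r : ℕ) : fk cU cN cA cE c0 c1 q (Nat.pair 0 r) =
    (1, Code.curry c0 (Nat.pair q r)) := by
  simp [fk, stp, lst_length]

lemma fk1 (q r : ℕ) : fk cU cN cA cE c0 c1 q (Nat.pair 1 r) =
    (1, Code.curry c1 (Nat.pair q r)) := by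
  simp [fk, stp, lst_length]

lemma fk2 (q r : ℕ) : fk cU cN cA cE c0 c1 q (Nat.pair 2 r) =
    ((fk cU cN cA cE c0 c1 q r).1 + 1, Code.comp cN (fk cU cN cA cE c0 c1 q r).2) := by
  rw [fk, stp]
  simp only [lst_length, Nat.unpair_pair]
  rw [lst_getD _ _ _ _ _ _ _ _ _ _ (lt_pair 2 r (by norm_num))]
  simp

lemma fk3 (q r s : ℕ) : fk cU cN cA cE c0 c1 q (Nat.pair 3 (Nat.pair r s)) =
    ((fk cU cN cA cE c0 c1 q r).1 + (fk cU cN cA cE c0 c1 q s).1 + 1,
      Code.comp cA (Code.pair
        ((Code.comp cU)^[(fk cU cN cA cE c0 c1 q s).1] (fk cU cN cA cE c0 c1 q r).2)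
        ((Code.comp cU)^[(fk cU cN cA cE c0 c1 q r).1] (fk cU cN cA cE c0 c1 q s).2))) := by
  rw [fk, stp]
  simp only [lst_length, Nat.unpair_pair]
  rw [lst_getD _ _ _ _ _ _ _ _ _ _
      (lt_of_le_of_lt (Nat.left_le_pair r s) (lt_pair 3 _ (by norm_num))),
    lst_getD _ _ _ _ _ _ _ _ _ _
      (lt_of_le_of_lt (Nat.right_le_pair r s) (lt_pair 3 _ (by norm_num)))]
  simp

lemma fk4 (q r : ℕ) : fk cU cN cA cE c0 c1 q (Nat.pair 4 r) =
    ((fk cU cN cA cE c0 c1 q r).1 + 2,
      Code.comp cN (Code.comp cE (Code.pair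
        (Code.const (Nat.pair q.unpair.2 (Encodable.encode (fk cU cN cA cE c0 c1 q r).2)))
        Code.id))) := by
  rw [fk, stp]
  simp only [lst_length, Nat.unpair_pair]
  rw [lst_getD _ _ _ _ _ _ _ _ _ _ (lt_pair 4 r (by norm_num))]
  simp

lemma fk5 (q k r : ℕ) (hk : 5 ≤ k) : fk cU cN cA cE c0 c1 q (Nat.pair k r) =
    (0, Code.zero) := by
  rw [fk, stp]
  simp only [lst_length, Nat.unpair_pair]
  rw [if_neg (by omega), if_neg (by omega), if_neg (by omega), if_neg (by omega),
    if_neg (by omega)]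

end

/-- `g` is computed by `c`. -/
def Cmp (c : Code) (g : ℕ → ℕ) : Prop := ∀ p, c.eval p = Part.some (g p)

lemma Cmp.comp {c d : Code} {g h : ℕ → ℕ} (hc : Cmp c g) (hd : Cmp d h) :
    Cmp (Code.comp c d) (fun p => g (h p)) := by
  intro p
  simp only [Code.eval]
  rw [hd p]
  exact (Part.bind_some _ _).trans (hc (h p))

lemma Cmp.pair {c d : Code} {g h : ℕ → ℕ} (hc : Cmp c g) (hd : Cmp d h) :
    Cmp (Code.pair c d) (fun p => Nat.pair (g p) (h p)) := by
  intro p
  simp only [Code.eval]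
  rw [hc p, hd p]
  simp [Seq.seq]

lemma Cmp.curry {c : Code} {g : ℕ → ℕ} (hc : Cmp c g) (n : ℕ) :
    Cmp (Code.curry c n) (fun p => g (Nat.pair n p)) := by
  intro p
  rw [Code.eval_curry, hc]

lemma Cmp.iter {c d : Code} {g h : ℕ → ℕ} (hc : Cmp c g) (hd : Cmp d h) (k : ℕ) :
    Cmp ((Code.comp c)^[k] d) (fun p => g^[k] (h p)) := by
  induction k with
  | zero => exact hd
  | succ k ih =>
    rw [Function.iterate_succ_apply']
    have := hc.comp ih
    intro p
    rw [this p]
    show Part.some (g (g^[k] (h p))) = Part.some (g^[k + 1] (h p))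
    rw [Function.iterate_succ_apply']

lemma Cmp.const (n : ℕ) : Cmp (Code.const n) (fun _ => n) := fun p => Code.eval_const n p

lemma Cmp.id : Cmp Code.id (fun p => p) := fun p => Code.eval_id p

lemma Cmp.zero : Cmp Code.zero (fun _ => 0) := by
  intro p
  simp only [Code.eval]
  rfl

lemma exists_cmp {g : ℕ → ℕ} (hg : Computable g) : ∃ c : Code, Cmp c g := by
  have h1 : Nat.Partrec (fun n => Part.some (g n)) := Partrec.nat_iff.1 hg
  obtain ⟨c, hc⟩ := Code.exists_code.1 h1
  exact ⟨c, fun p => by rw [hc]⟩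

/-- All the codes are codes of total functions. -/
lemma fk_total {cU cN cA cE c0 c1 : Code} {gU gN gA gE g0 g1 : ℕ → ℕ} (hU : Cmp cU gU)
    (hN : Cmp cN gN) (hA : Cmp cA gA) (hE : Cmp cE gE) (h0 : Cmp c0 g0) (h1 : Cmp c1 g1)
    (q n : ℕ) : ∃ g, Cmp (fk cU cN cA cE c0 c1 q n).2 g := by
  induction n using Nat.strong_induction_on with
  | _ n ih =>
    obtain ⟨k, r, rfl⟩ : ∃ k r, n = Nat.pair k r := ⟨n.unpair.1, n.unpair.2, by simp⟩
    by_cases hk0 : k = 0
    · subst hk0
      rw [fk0]
      exact ⟨_, h0.curry _⟩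
    by_cases hk1 : k = 1
    · subst hk1
      rw [fk1]
      exact ⟨_, h1.curry _⟩
    have hr : r < Nat.pair k r := lt_pair k r (by omega)
    by_cases hk2 : k = 2
    · subst hk2
      rw [fk2]
      obtain ⟨g, hg⟩ := ih r hr
      exact ⟨_, hN.comp hg⟩
    by_cases hk3 : k = 3
    · subst hk3
      obtain ⟨a, b, rfl⟩ : ∃ a b, r = Nat.pair a b := ⟨r.unpair.1, r.unpair.2, by simp⟩
      rw [fk3]
      obtain ⟨g, hg⟩ := ih a (lt_of_le_of_lt (Nat.left_le_pair a b) hr)
      obtain ⟨g', hg'⟩ := ih b (lt_of_le_of_lt (Nat.right_le_pair a b) hr)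
      exact ⟨_, hA.comp ((hU.iter hg _).pair (hU.iter hg' _))⟩
    by_cases hk4 : k = 4
    · subst hk4
      rw [fk4]
      exact ⟨_, hN.comp (hE.comp ((Cmp.const _).pair Cmp.id))⟩
    rw [fk5 _ _ _ _ _ _ _ _ _ (by omega)]
    exact ⟨_, Cmp.zero⟩

lemma asg_pair (b p : ℕ) : asg (Nat.pair b p) = cons b (asg p) := by
  funext i
  cases i with
  | zero => simp [asg, cons]
  | succ i => simp [asg, cons]

lemma iter_up {gU : ℕ → ℕ} (hup : ∀ (X : Set ℕ) (x : ℕ), gU x ∈ jump X ↔ x ∈ X) (k l x : ℕ) :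
    gU^[k] x ∈ jump^[l + k] ∅ ↔ x ∈ jump^[l] ∅ := by
  induction k with
  | zero => rfl
  | succ k ih =>
    rw [Function.iterate_succ_apply', ← Nat.add_assoc, Function.iterate_succ_apply', hup, ih]

end P_REC

open P_REC
open Nat.Partrec (Code)

theorem prf_truth (hm : Maps) (hr : S_ren) : S_truth := by
  obtain ⟨gU, hgU, hup⟩ := hm.up
  obtain ⟨gN, hgN, hng⟩ := hm.ng
  obtain ⟨gA, hgA, han⟩ := hm.an
  obtain ⟨gE, hgE, hex⟩ := hm.ex
  obtain ⟨gW, hgW, hwe⟩ := hm.we
  obtain ⟨r, hrc, hr⟩ := hr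
  obtain ⟨cU, hU⟩ := exists_cmp hgU
  obtain ⟨cN, hN⟩ := exists_cmp hgN
  obtain ⟨cA, hA⟩ := exists_cmp hgA
  obtain ⟨cE, hE⟩ := exists_cmp hgE
  -- the atomic formulas
  let g0 : ℕ → ℕ := fun z => gW (Nat.pair z.unpair.1.unpair.1.unpair.1
    (Nat.pair 0 (Nat.pair (r (Nat.pair z.unpair.1.unpair.2.unpair.1 z.unpair.2))
      (r (Nat.pair z.unpair.1.unpair.2.unpair.2 z.unpair.2)))))
  let g1 : ℕ → ℕ := fun z => gW (Nat.pair z.unpair.1.unpair.1.unpair.1
    (Nat.pair 1 (Nat.pair z.unpair.1.unpair.2.unpair.1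
      (r (Nat.pair z.unpair.1.unpair.2.unpair.2 z.unpair.2)))))
  have cfst : ∀ f : ℕ → ℕ, Computable f → Computable fun z => (f z).unpair.1 := fun f hf =>
    Computable.fst.comp (Computable.unpair.comp hf)
  have csnd : ∀ f : ℕ → ℕ, Computable f → Computable fun z => (f z).unpair.2 := fun f hf =>
    Computable.snd.comp (Computable.unpair.comp hf)
  have cpair : ∀ f g : ℕ → ℕ, Computable f → Computable g →
      Computable fun z => Nat.pair (f z) (g z) := fun f g hf hg =>
    Primrec₂.natPair.to_comp.comp hf hg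
  have hg0 : Computable g0 := by
    refine hgW.comp (cpair _ _ (cfst _ (cfst _ (cfst _ Computable.id)))
      (cpair _ _ (Computable.const 0) (cpair _ _ (hrc.comp (cpair _ _ ?_ ?_))
        (hrc.comp (cpair _ _ ?_ ?_)))))
    · exact cfst _ (csnd _ (cfst _ Computable.id))
    · exact csnd _ Computable.id
    · exact csnd _ (csnd _ (cfst _ Computable.id))
    · exact csnd _ Computable.id
  have hg1 : Computable g1 := by
    refine hgW.comp (cpair _ _ (cfst _ (cfst _ (cfst _ Computable.id)))
      (cpair _ _ (Computable.const 1) (cpair _ _ ?_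
        (hrc.comp (cpair _ _ ?_ ?_)))))
    · exact cfst _ (csnd _ (cfst _ Computable.id))
    · exact csnd _ (csnd _ (cfst _ Computable.id))
    · exact csnd _ Computable.id
  obtain ⟨c0, h0⟩ := exists_cmp hg0
  obtain ⟨c1, h1⟩ := exists_cmp hg1
  set F := fk cU cN cA cE c0 c1 with hF
  -- correctness
  have key : ∀ (q : ℕ) (φ : Fm), ∃ g : ℕ → ℕ, Cmp (F q φ.code).2 g ∧
      ∀ p, Tru (We q.unpair.1) (We q.unpair.2) φ (asg p) ↔ g p ∈ jump^[(F q φ.code).1] ∅ := by
    intro q φ
    induction φ with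
    | eq s t =>
      refine ⟨fun p => g0 (Nat.pair (Nat.pair q (Nat.pair s.code t.code)) p), ?_, ?_⟩
      · rw [Fm.code, hF, fk0]
        exact h0.curry _
      · intro p
        rw [Fm.code, hF, fk0]
        simp only [Function.iterate_one]
        simp only [g0, Nat.unpair_pair]
        rw [hwe, hr, hr]
        rfl
    | rel R s =>
      refine ⟨fun p => g1 (Nat.pair (Nat.pair q (Nat.pair R s.code)) p), ?_, ?_⟩
      · rw [Fm.code, hF, fk1]
        exact h1.curry _
      · intro p
        rw [Fm.code, hF, fk1]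
        simp only [Function.iterate_one]
        simp only [g1, Nat.unpair_pair]
        rw [hwe, hr]
        rfl
    | neg φ ih =>
      obtain ⟨g, hg, ht⟩ := ih
      refine ⟨fun p => gN (g p), ?_, ?_⟩
      · rw [Fm.code, hF, fk2]
        exact hN.comp hg
      · intro p
        rw [Fm.code, hF, fk2]
        simp only
        rw [Function.iterate_succ_apply', hng, Tru, ht p]
    | and φ ψ ih1 ih2 =>
      obtain ⟨g, hg, ht⟩ := ih1
      obtain ⟨g', hg', ht'⟩ := ih2
      refine ⟨fun p => gA (Nat.pair (gU^[(F q ψ.code).1] (g p)) (gU^[(F q φ.code).1] (g' p))),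
        ?_, ?_⟩
      · rw [Fm.code, hF, fk3]
        exact hA.comp ((hU.iter hg _).pair (hU.iter hg' _))
      · intro p
        rw [Fm.code, hF, fk3]
        simp only
        rw [Function.iterate_succ_apply', han, iter_up hup, Nat.add_comm, iter_up hup, Tru, ht p,
          ht' p]
    | all φ ih =>
      obtain ⟨g, hg, ht⟩ := ih
      refine ⟨fun p => gN (gE (Nat.pair (Nat.pair q.unpair.2
        (Encodable.encode (F q φ.code).2)) p)), ?_, ?_⟩
      · rw [Fm.code, hF, fk4]
        exact hN.comp (hE.comp ((Cmp.const _).pair Cmp.id))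
      · intro p
        rw [Fm.code, hF, fk4]
        simp only
        rw [Function.iterate_succ_apply', hng, Function.iterate_succ_apply',
          hex _ _ _ _ (fun b => g (Nat.pair b p)), Tru]
        · push Not
          refine forall₂_congr fun b hb => ?_
          rw [← asg_pair, ht]
        · intro b
          rw [Denumerable.ofNat_encode, hg]
          exact Part.mem_some _
  -- the function
  have tot : ∀ q n, ∃ g, Cmp (F q n).2 g := fun q n => fk_total hU hN hA hE h0 h1 q n
  choose G hG using tot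
  refine ⟨fun z => Nat.pair (F z.unpair.1 z.unpair.2.unpair.1).1
    (G z.unpair.1 z.unpair.2.unpair.1 z.unpair.2.unpair.2), ?_, ?_⟩
  · have hFc : Computable fun z : ℕ => F z.unpair.1 z.unpair.2.unpair.1 :=
      (primrec_fk cU cN cA cE c0 c1).to_comp.comp (cfst _ Computable.id)
        (cfst _ (csnd _ Computable.id))
    have he : Partrec fun z : ℕ => (F z.unpair.1 z.unpair.2.unpair.1).2.eval z.unpair.2.unpair.2 :=
      Code.eval_part.comp (Computable.snd.comp hFc) (csnd _ (csnd _ Computable.id))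
    have he2 : Partrec fun z : ℕ => ((F z.unpair.1 z.unpair.2.unpair.1).2.eval
        z.unpair.2.unpair.2).map (fun y => Nat.pair (F z.unpair.1 z.unpair.2.unpair.1).1 y) :=
      he.map (Primrec₂.natPair.to_comp.comp
        ((Computable.fst.comp hFc).comp Computable.fst) Computable.snd)
    refine he2.of_eq fun z => ?_
    rw [hG]
    simp
  · intro e e' φ p
    obtain ⟨g, hg, ht⟩ := key (Nat.pair e e') φ
    simp only [Nat.unpair_pair] at ht ⊢
    rw [ht p]
    have hgG : G (Nat.pair e e') φ.code p = g p := by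
      have h2 := hG (Nat.pair e e') φ.code p
      rw [hg p] at h2
      exact (Part.some_injective h2).symm
    rw [hgG]
    simp only [omegaJump, Set.mem_ofPred_eq, Nat.unpair_pair]

end Pool.Agent.N636.TD
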