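import Mathlib
import Pool.Agent.N636.TD.Stm

set_option autoImplicit false

/-!
# Substitution of variables in terms is computable
-/

namespace Pool.Agent.N636.TD

namespace P_REN

/-- the new value, from the list of the values at all smaller numbers -/
def body (p : ℕ) (l : List ℕ) : ℕ :=
  if l.length.unpair.1 = 0 then Nat.pair 0 (asg p l.length.unpair.2)
  else if l.length.unpair.1 = 1 then
    Nat.pair 1 (Nat.pair l.length.unpair.2.unpair.1 (l.getD l.length.unpair.2.unpair.2 0))
  else if l.length.unpair.1 = 2 then l.length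
  else Nat.pair 3 (Nat.pair (l.getD l.length.unpair.2.unpair.1 0)
    (l.getD l.length.unpair.2.unpair.2 0))

/-- the list of the first `n` values -/
def Ls (p n : ℕ) : List ℕ := (fun l => l ++ [body p l])^[n] []

/-- the value at `n` -/
def F (p n : ℕ) : ℕ := body p (Ls p n)

lemma Ls_succ (p n : ℕ) : Ls p (n + 1) = Ls p n ++ [F p n] := by
  unfold Ls F
  rw [Function.iterate_succ_apply']
  rfl

lemma Ls_len (p n : ℕ) : (Ls p n).length = n := by
  induction n with
  | zero => rfl
  | succ n ih => rw [Ls_succ, List.length_append, ih]; rfl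

lemma Ls_get (p n i : ℕ) (h : i < n) : (Ls p n).getD i 0 = F p i := by
  induction n with
  | zero => omega
  | succ n ih =>
    rw [Ls_succ]
    rcases Nat.lt_or_ge i n with h1 | h1
    · rw [List.getD_append _ _ _ _ (by rw [Ls_len]; exact h1), ih h1]
    · obtain rfl : i = n := by omega
      rw [List.getD_append_right _ _ _ _ (by rw [Ls_len])]
      rw [Ls_len]
      simp

lemma F_code (t : Tr) (p : ℕ) : F p t.code = (t.ren (asg p)).code := by
  induction t with
  | var i =>
    unfold F body
    rw [Ls_len, Tr.code, Nat.unpair_pair]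
    simp [Tr.ren, Tr.code]
  | app f a ih =>
    unfold F body
    rw [Ls_len, Tr.code, Nat.unpair_pair]
    have h1 : a.code < Nat.pair 1 (Nat.pair f a.code) := by
      have h2 := Nat.add_le_pair 1 (Nat.pair f a.code)
      have h3 := Nat.right_le_pair f a.code
      omega
    simp only [one_ne_zero, if_false, if_true, Nat.unpair_pair]
    rw [Ls_get _ _ _ h1, ih]
    rfl
  | nil =>
    unfold F body
    rw [Ls_len, Tr.code, Nat.unpair_pair]
    simp [Tr.ren, Tr.code]
  | cons t s iht ihs =>
    unfold F body
    rw [Ls_len, Tr.code, Nat.unpair_pair]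
    have h1 : s.code < Nat.pair 3 (Nat.pair t.code s.code) := by
      have h2 := Nat.add_le_pair 3 (Nat.pair t.code s.code)
      have h3 := Nat.right_le_pair t.code s.code
      omega
    have h1' : t.code < Nat.pair 3 (Nat.pair t.code s.code) := by
      have h2 := Nat.add_le_pair 3 (Nat.pair t.code s.code)
      have h3 := Nat.left_le_pair t.code s.code
      omega
    have h3 : ¬ ((3 : ℕ) = 0) := by norm_num
    have h4 : ¬ ((3 : ℕ) = 1) := by norm_num
    have h5 : ¬ ((3 : ℕ) = 2) := by norm_num
    simp only [h3, h4, h5, if_false, Nat.unpair_pair]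
    rw [Ls_get _ _ _ h1, Ls_get _ _ _ h1', ihs, iht]
    rfl

lemma asg_prim : Primrec₂ asg := by
  unfold asg
  have h1 : Primrec₂ (fun p i : ℕ => (fun q => (Nat.unpair q).2)^[i] p) := by
    refine Primrec.nat_iterate (α := ℕ × ℕ) (f := fun x => x.2) (g := fun x => x.1)
      (h := fun _ q => (Nat.unpair q).2) Primrec.snd Primrec.fst ?_
    exact (Primrec.snd.comp Primrec.unpair).comp Primrec.snd
  exact (Primrec.fst.comp Primrec.unpair).comp h1

lemma body_prim : Primrec₂ body := by
  have hl : Primrec (fun x : ℕ × List ℕ => x.2.length) := Primrec.list_length.comp Primrec.snd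
  have h1 : Primrec (fun x : ℕ × List ℕ => x.2.length.unpair.1) :=
    (Primrec.fst.comp Primrec.unpair).comp hl
  have h2 : Primrec (fun x : ℕ × List ℕ => x.2.length.unpair.2) :=
    (Primrec.snd.comp Primrec.unpair).comp hl
  have h3 : Primrec (fun x : ℕ × List ℕ => x.2.length.unpair.2.unpair.1) :=
    (Primrec.fst.comp Primrec.unpair).comp h2
  have h4 : Primrec (fun x : ℕ × List ℕ => x.2.length.unpair.2.unpair.2) :=
    (Primrec.snd.comp Primrec.unpair).comp h2
  have h5 : Primrec (fun x : ℕ × List ℕ => x.2.getD x.2.length.unpair.2.unpair.1 0) :=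
    (Primrec.list_getD 0).comp Primrec.snd h3
  have h6 : Primrec (fun x : ℕ × List ℕ => x.2.getD x.2.length.unpair.2.unpair.2 0) :=
    (Primrec.list_getD 0).comp Primrec.snd h4
  have e : ∀ k : ℕ, PrimrecPred (fun x : ℕ × List ℕ => x.2.length.unpair.1 = k) := fun k =>
    Primrec.eq.comp h1 (Primrec.const k)
  refine Primrec.ite (e 0) ?_ (Primrec.ite (e 1) ?_ (Primrec.ite (e 2) hl ?_))
  · exact Primrec₂.natPair.comp (Primrec.const 0) (asg_prim.comp Primrec.fst h2)
  · exact Primrec₂.natPair.comp (Primrec.const 1) (Primrec₂.natPair.comp h3 h6)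
  · exact Primrec₂.natPair.comp (Primrec.const 3) (Primrec₂.natPair.comp h5 h6)

lemma Ls_prim : Primrec₂ Ls := by
  unfold Ls
  refine Primrec.nat_iterate (α := ℕ × ℕ) (f := fun x => x.2) (g := fun _ => ([] : List ℕ))
    (h := fun x l => l ++ [body x.1 l]) Primrec.snd (Primrec.const _) ?_
  refine Primrec.list_append.comp Primrec.snd ?_
  refine Primrec.list_cons.comp ?_ (Primrec.const _)
  exact body_prim.comp (Primrec.fst.comp Primrec.fst) Primrec.snd

lemma F_prim : Primrec₂ F := body_prim.comp Primrec.fst Ls_prim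

end P_REN

theorem prf_ren : S_ren := by
  refine ⟨fun z => P_REN.F z.unpair.2 z.unpair.1, ?_, ?_⟩
  · refine Primrec.to_comp ?_
    exact P_REN.F_prim.comp (Primrec.snd.comp Primrec.unpair) (Primrec.fst.comp Primrec.unpair)
  · intro t p
    simp only [Nat.unpair_pair]
    exact P_REN.F_code t p

end Pool.Agent.N636.TD
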