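import Mathlib
import Pool.Agent.N636.TD.Stm

/-!
# TD/SEM: truth is determined by the atomic diagram
-/

set_option autoImplicit false

namespace Pool.Agent.N636.TD

open Pool.Agent.N636.SF (cons)

namespace P_SEM

/-! ### Codes are injective -/

theorem tr_code_inj : ∀ s t : Tr, s.code = t.code → s = t
  | .var i, .var j, h => by
    simp only [Tr.code, Nat.pair_eq_pair] at h
    rw [h.2]
  | .var _, .app _ _, h => by simp [Tr.code, Nat.pair_eq_pair] at h
  | .var _, .nil, h => by simp [Tr.code, Nat.pair_eq_pair] at h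
  | .var _, .cons _ _, h => by simp [Tr.code, Nat.pair_eq_pair] at h
  | .app _ _, .var _, h => by simp [Tr.code, Nat.pair_eq_pair] at h
  | .app f a, .app g b, h => by
    simp only [Tr.code, Nat.pair_eq_pair] at h
    rw [h.2.1, tr_code_inj a b h.2.2]
  | .app _ _, .nil, h => by simp [Tr.code, Nat.pair_eq_pair] at h
  | .app _ _, .cons _ _, h => by simp [Tr.code, Nat.pair_eq_pair] at h
  | .nil, .var _, h => by simp [Tr.code, Nat.pair_eq_pair] at h
  | .nil, .app _ _, h => by simp [Tr.code, Nat.pair_eq_pair] at h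
  | .nil, .nil, _ => rfl
  | .nil, .cons _ _, h => by simp [Tr.code, Nat.pair_eq_pair] at h
  | .cons _ _, .var _, h => by simp [Tr.code, Nat.pair_eq_pair] at h
  | .cons _ _, .app _ _, h => by simp [Tr.code, Nat.pair_eq_pair] at h
  | .cons _ _, .nil, h => by simp [Tr.code, Nat.pair_eq_pair] at h
  | .cons t s, .cons t' s', h => by
    simp only [Tr.code, Nat.pair_eq_pair] at h
    rw [tr_code_inj t t' h.2.1, tr_code_inj s s' h.2.2]

theorem fm_code_inj : ∀ φ ψ : Fm, φ.code = ψ.code → φ = ψ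
  | .eq s t, .eq s' t', h => by
    simp only [Fm.code, Nat.pair_eq_pair] at h
    rw [tr_code_inj _ _ h.2.1, tr_code_inj _ _ h.2.2]
  | .eq _ _, .rel _ _, h => by simp [Fm.code, Nat.pair_eq_pair] at h
  | .eq _ _, .neg _, h => by simp [Fm.code, Nat.pair_eq_pair] at h
  | .eq _ _, .and _ _, h => by simp [Fm.code, Nat.pair_eq_pair] at h
  | .eq _ _, .all _, h => by simp [Fm.code, Nat.pair_eq_pair] at h
  | .rel _ _, .eq _ _, h => by simp [Fm.code, Nat.pair_eq_pair] at h
  | .rel R a, .rel R' a', h => by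
    simp only [Fm.code, Nat.pair_eq_pair] at h
    rw [h.2.1, tr_code_inj _ _ h.2.2]
  | .rel _ _, .neg _, h => by simp [Fm.code, Nat.pair_eq_pair] at h
  | .rel _ _, .and _ _, h => by simp [Fm.code, Nat.pair_eq_pair] at h
  | .rel _ _, .all _, h => by simp [Fm.code, Nat.pair_eq_pair] at h
  | .neg _, .eq _ _, h => by simp [Fm.code, Nat.pair_eq_pair] at h
  | .neg _, .rel _ _, h => by simp [Fm.code, Nat.pair_eq_pair] at h
  | .neg φ, .neg ψ, h => by
    simp only [Fm.code, Nat.pair_eq_pair] at h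
    rw [fm_code_inj φ ψ h.2]
  | .neg _, .and _ _, h => by simp [Fm.code, Nat.pair_eq_pair] at h
  | .neg _, .all _, h => by simp [Fm.code, Nat.pair_eq_pair] at h
  | .and _ _, .eq _ _, h => by simp [Fm.code, Nat.pair_eq_pair] at h
  | .and _ _, .rel _ _, h => by simp [Fm.code, Nat.pair_eq_pair] at h
  | .and _ _, .neg _, h => by simp [Fm.code, Nat.pair_eq_pair] at h
  | .and φ ψ, .and φ' ψ', h => by
    simp only [Fm.code, Nat.pair_eq_pair] at h
    rw [fm_code_inj φ φ' h.2.1, fm_code_inj ψ ψ' h.2.2]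
  | .and _ _, .all _, h => by simp [Fm.code, Nat.pair_eq_pair] at h
  | .all _, .eq _ _, h => by simp [Fm.code, Nat.pair_eq_pair] at h
  | .all _, .rel _ _, h => by simp [Fm.code, Nat.pair_eq_pair] at h
  | .all _, .neg _, h => by simp [Fm.code, Nat.pair_eq_pair] at h
  | .all _, .and _ _, h => by simp [Fm.code, Nat.pair_eq_pair] at h
  | .all φ, .all ψ, h => by
    simp only [Fm.code, Nat.pair_eq_pair] at h
    rw [fm_code_inj φ ψ h.2]

/-! ### Substitution in terms -/

theorem val_ren {L : Sig} (M : Str L) (v a : ℕ → ℕ) (t : Tr) :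
    (t.ren a).val M v = t.val M (fun i => v (a i)) := by
  induction t with
  | var i => rfl
  | app f s ih => simp only [Tr.ren, Tr.val, ih]
  | nil => rfl
  | cons t s iht ihs => simp only [Tr.ren, Tr.val, iht, ihs]

theorem isT_ren {L : Sig} (a : ℕ → ℕ) {k : Option ℕ} {t : Tr} (h : IsT L k t) :
    IsT L k (t.ren a) := by
  induction h with
  | var i => exact IsT.var _
  | app hf _ ih => exact IsT.app hf ih
  | nil => exact IsT.nil
  | cons _ _ ih1 ih2 => exact IsT.cons ih1 ih2

theorem varsIn_ren (U : Set ℕ) (a : ℕ → ℕ) (ha : ∀ i, a i ∈ U) (t : Tr) :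
    (t.ren a).VarsIn U := by
  induction t with
  | var i => exact ha i
  | app f s ih => exact ih
  | nil => trivial
  | cons t s iht ihs => exact ⟨iht, ihs⟩

theorem ren_congr (k : ℕ) (a a' : ℕ → ℕ) (h : ∀ i < k, a i = a' i) (t : Tr)
    (ht : t.VarsIn (Set.Iio k)) : t.ren a = t.ren a' := by
  induction t with
  | var i => exact congrArg Tr.var (h i ht)
  | app f s ih => exact congrArg (Tr.app f) (ih ht)
  | nil => rfl
  | cons t s iht ihs => simp only [Tr.ren]; rw [iht ht.1, ihs ht.2]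

theorem atomic_mem {L : Sig} (M : Str L) (φ : Fm) (ha : φ.IsAtomic) (hw : φ.Wf L)
    (hv : φ.VarsIn M.U) : φ.code ∈ diagram M ↔ Sat M φ (fun i => i) := by
  constructor
  · rintro ⟨ψ, h, -, -, -, hs⟩
    rw [fm_code_inj _ _ h]
    exact hs
  · exact fun h => ⟨φ, rfl, ha, hw, hv, h⟩

theorem cons_mem (U : Set ℕ) (a : ℕ → ℕ) (ha : ∀ i, a i ∈ U) (b : ℕ) (hb : b ∈ U) :
    ∀ i, cons b a i ∈ U := by
  intro i
  cases i with
  | zero => exact hb
  | succ i => exact ha i

theorem tru_congr (E U : Set ℕ) (φ : Fm) : ∀ (k : ℕ), φ.Bd k → ∀ a a' : ℕ → ℕ,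
    (∀ i < k, a i = a' i) → (Tru E U φ a ↔ Tru E U φ a') := by
  induction φ with
  | eq s t =>
    intro k hk a a' h
    simp only [Tru, ren_congr k a a' h s hk.1, ren_congr k a a' h t hk.2]
  | rel R s =>
    intro k hk a a' h
    simp only [Tru, ren_congr k a a' h s hk]
  | neg φ ih =>
    intro k hk a a' h
    simp only [Tru, ih k hk a a' h]
  | and φ ψ ih1 ih2 =>
    intro k hk a a' h
    simp only [Tru, ih1 k hk.1 a a' h, ih2 k hk.2 a a' h]
  | all φ ih =>
    intro k hk a a' h
    simp only [Tru]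
    refine forall_congr' fun b => forall_congr' fun _ => ih (k + 1) hk _ _ ?_
    intro i hi
    cases i with
    | zero => rfl
    | succ i => exact h i (by omega)

end P_SEM

open P_SEM

theorem prf_sem : S_sem := by
  intro L M φ
  induction φ with
  | eq s t =>
    intro hw a ha
    simp only [Tru]
    rw [atomic_mem M (Fm.eq (s.ren a) (t.ren a)) trivial
      ⟨isT_ren a hw.1, isT_ren a hw.2⟩ ⟨varsIn_ren _ a ha s, varsIn_ren _ a ha t⟩]
    simp only [Sat, val_ren]
  | rel R s =>
    intro hw a ha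
    simp only [Tru]
    rw [atomic_mem M (Fm.rel R (s.ren a)) trivial
      ⟨hw.1, isT_ren a hw.2⟩ (varsIn_ren _ a ha s)]
    simp only [Sat, val_ren]
  | neg φ ih =>
    intro hw a ha
    simp only [Tru, Sat, ih hw a ha]
  | and φ ψ ih1 ih2 =>
    intro hw a ha
    simp only [Tru, Sat, ih1 hw.1 a ha, ih2 hw.2 a ha]
  | all φ ih =>
    intro hw a ha
    simp only [Tru, Sat]
    exact forall_congr' fun b => forall_congr' fun hb => ih hw _ (cons_mem _ a ha b hb)

theorem prf_semS : S_semS := by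
  intro L M φ hφ
  have key : ∀ v : ℕ → ℕ, (∀ i, v i ∈ M.U) →
      (Sat M φ v ↔ Tru (diagram M) M.U φ (asg 0)) := fun v hv =>
    (prf_sem L M φ hφ.1 v hv).trans
      (tru_congr _ _ φ 0 hφ.2 v (asg 0) fun i hi => absurd hi (Nat.not_lt_zero i))
  constructor
  · intro h
    obtain ⟨u, hu⟩ := M.ne
    exact (key (fun _ => u) fun _ => hu).1 (h (fun _ => u) fun _ => hu)
  · intro h v hv
    exact (key v hv).2 h

end Pool.Agent.N636.TD
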