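import Mathlib
import Pool.Agent.N636.TD.Stm

/-!
# The set of sentences of a computable signature is computable
-/

set_option autoImplicit false

namespace Pool.Agent.N636.TD

namespace P_WF

/-! ### Terms -/

theorem Tr_code_inj : ∀ s t : Tr, s.code = t.code → s = t := by
  intro s
  induction s with
  | var i =>
    intro t h
    cases t <;> simp [Tr.code, Nat.pair_eq_pair] at h ⊢
    exact h
  | app f a ih =>
    intro t h
    cases t with
    | app g b =>
      simp only [Tr.code, Nat.pair_eq_pair, true_and] at h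
      rw [h.1, ih b h.2]
    | _ => simp [Tr.code, Nat.pair_eq_pair] at h
  | nil =>
    intro t h
    cases t <;> simp [Tr.code, Nat.pair_eq_pair] at h ⊢
  | cons a b iha ihb =>
    intro t h
    cases t with
    | cons c d =>
      simp only [Tr.code, Nat.pair_eq_pair, true_and] at h
      rw [iha c h.1, ihb d h.2]
    | _ => simp [Tr.code, Nat.pair_eq_pair] at h

theorem Fm_code_inj : ∀ s t : Fm, s.code = t.code → s = t := by
  intro s
  induction s with
  | eq a b =>
    intro t h
    cases t with
    | eq c d =>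
      simp only [Fm.code, Nat.pair_eq_pair, true_and] at h
      rw [Tr_code_inj _ _ h.1, Tr_code_inj _ _ h.2]
    | _ => simp [Fm.code, Nat.pair_eq_pair] at h
  | rel R a =>
    intro t h
    cases t with
    | rel S b =>
      simp only [Fm.code, Nat.pair_eq_pair, true_and] at h
      rw [h.1, Tr_code_inj _ _ h.2]
    | _ => simp [Fm.code, Nat.pair_eq_pair] at h
  | neg φ ih =>
    intro t h
    cases t with
    | neg ψ =>
      simp only [Fm.code, Nat.pair_eq_pair, true_and] at h
      rw [ih _ h]
    | _ => simp [Fm.code, Nat.pair_eq_pair] at h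
  | and φ ψ ih1 ih2 =>
    intro t h
    cases t with
    | and φ' ψ' =>
      simp only [Fm.code, Nat.pair_eq_pair, true_and] at h
      rw [ih1 _ h.1, ih2 _ h.2]
    | _ => simp [Fm.code, Nat.pair_eq_pair] at h
  | all φ ih =>
    intro t h
    cases t with
    | all ψ =>
      simp only [Fm.code, Nat.pair_eq_pair, true_and] at h
      rw [ih _ h]
    | _ => simp [Fm.code, Nat.pair_eq_pair] at h

/-- `0` for a term, `k + 1` for a list of `k` terms -/
def knd : Tr → ℕ
  | .var _ => 0
  | .app _ _ => 0
  | .nil => 1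
  | .cons _ s => knd s + 1

/-- bound for the variables -/
def bnd : Tr → ℕ
  | .var i => i + 1
  | .app _ a => bnd a
  | .nil => 0
  | .cons t s => max (bnd t) (bnd s)

/-- well-formed -/
def OkT (L : Sig) : Tr → Prop
  | .var _ => True
  | .app f a => f ∈ L.fn ∧ OkT L a ∧ knd a = L.far f + 1
  | .nil => True
  | .cons t s => (OkT L t ∧ knd t = 0) ∧ (OkT L s ∧ 0 < knd s)

theorem isT_iff (L : Sig) : ∀ t : Tr, (IsT L none t ↔ OkT L t ∧ knd t = 0) ∧
    ∀ k, (IsT L (some k) t ↔ OkT L t ∧ knd t = k + 1) := by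
  intro t
  induction t with
  | var i =>
    refine ⟨⟨fun _ => ⟨trivial, rfl⟩, fun _ => .var i⟩, fun k => ⟨fun h => (by cases h), fun h => ?_⟩⟩
    have := h.2
    simp [knd] at this
  | app f a ih =>
    refine ⟨⟨fun h => ?_, fun h => ?_⟩, fun k => ⟨fun h => (by cases h), fun h => ?_⟩⟩
    · cases h with
      | app h1 h2 => exact ⟨⟨h1, (ih.2 _).1 h2⟩, rfl⟩
    · exact .app h.1.1 ((ih.2 _).2 h.1.2)
    · have := h.2
      simp [knd] at this
  | nil =>
    refine ⟨⟨fun h => (by cases h), fun h => ?_⟩, fun k => ⟨fun h => ?_, fun h => ?_⟩⟩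
    · have := h.2
      simp [knd] at this
    · cases h
      exact ⟨trivial, rfl⟩
    · have h1 : k = 0 := by
        have := h.2
        simp [knd] at this
        omega
      rw [h1]
      exact .nil
  | cons t s iht ihs =>
    refine ⟨⟨fun h => (by cases h), fun h => ?_⟩, fun k => ⟨fun h => ?_, fun h => ?_⟩⟩
    · have := h.2
      simp [knd] at this
    · cases h with
      | cons h1 h2 =>
        rename_i n
        have h3 := iht.1.1 h1
        have h4 := (ihs.2 n).1 h2
        refine ⟨⟨h3, h4.1, by omega⟩, ?_⟩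
        show knd s + 1 = _
        rw [h4.2]
    · obtain ⟨⟨h1, h2, h3⟩, h4⟩ := h
      have h5 : knd s = k := by
        have : knd s + 1 = k + 1 := h4
        omega
      obtain ⟨j, rfl⟩ : ∃ j, k = j + 1 := ⟨k - 1, by omega⟩
      exact .cons (iht.1.2 h1) ((ihs.2 j).2 ⟨h2, h5⟩)

theorem varsIn_iff (t : Tr) (k : ℕ) : t.VarsIn (Set.Iio k) ↔ bnd t ≤ k := by
  induction t with
  | var i => exact Nat.lt_iff_add_one_le
  | app f a ih => exact ih
  | nil => exact ⟨fun _ => Nat.zero_le _, fun _ => trivial⟩
  | cons t s iht ihs =>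
    show (t.VarsIn (Set.Iio k) ∧ s.VarsIn (Set.Iio k)) ↔ max (bnd t) (bnd s) ≤ k
    rw [iht, ihs, max_le_iff]

open Classical in
/-- the information on a term -/
noncomputable def FT (L : Sig) (t : Tr) : ℕ := if OkT L t then 1 + Nat.pair (knd t) (bnd t) else 0

open Classical in
/-- the information on a number -/
noncomputable def infT (L : Sig) (n : ℕ) : ℕ :=
  if h : ∃ t : Tr, t.code = n then FT L h.choose else 0

theorem infT_code (L : Sig) (t : Tr) : infT L t.code = FT L t := by
  have h : ∃ s : Tr, s.code = t.code := ⟨t, rfl⟩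
  unfold infT
  rw [dif_pos h, Tr_code_inj _ _ h.choose_spec]

theorem infT_not (L : Sig) (n : ℕ) (h : ¬ ∃ t : Tr, t.code = n) : infT L n = 0 := by
  unfold infT
  rw [dif_neg h]

theorem FT_ok {L : Sig} {t : Tr} (h : OkT L t) : FT L t = 1 + Nat.pair (knd t) (bnd t) := by
  unfold FT
  rw [if_pos h]

theorem FT_not {L : Sig} {t : Tr} (h : ¬ OkT L t) : FT L t = 0 := by
  unfold FT
  rw [if_neg h]

/-- the step of the recursion for terms -/
def stT (χ : ℕ → Bool) (far : ℕ → ℕ) (g r x vx vy : ℕ) : ℕ :=
  bif decide (g = 0) then 1 + Nat.pair 0 (r + 1)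
  else bif decide (g = 1) then
    (bif χ x && (decide (0 < vy) && decide ((vy - 1).unpair.1 = far x + 1)) then
      1 + Nat.pair 0 (vy - 1).unpair.2 else 0)
  else bif decide (g = 2) then (bif decide (r = 0) then 1 + Nat.pair 1 0 else 0)
  else bif decide (g = 3) then
    (bif (decide (0 < vx) && decide ((vx - 1).unpair.1 = 0)) &&
        (decide (0 < vy) && decide (0 < (vy - 1).unpair.1)) then
      1 + Nat.pair ((vy - 1).unpair.1 + 1) (max (vx - 1).unpair.2 (vy - 1).unpair.2) else 0)
  else 0

theorem stT_0 (χ : ℕ → Bool) (far : ℕ → ℕ) (r x vx vy : ℕ) :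
    stT χ far 0 r x vx vy = 1 + Nat.pair 0 (r + 1) := rfl

theorem stT_1 (χ : ℕ → Bool) (far : ℕ → ℕ) (r x vx vy : ℕ) :
    stT χ far 1 r x vx vy =
    (bif χ x && (decide (0 < vy) && decide ((vy - 1).unpair.1 = far x + 1)) then
      1 + Nat.pair 0 (vy - 1).unpair.2 else 0) := rfl

theorem stT_2 (χ : ℕ → Bool) (far : ℕ → ℕ) (r x vx vy : ℕ) :
    stT χ far 2 r x vx vy = (bif decide (r = 0) then 1 + Nat.pair 1 0 else 0) := rfl

theorem stT_3 (χ : ℕ → Bool) (far : ℕ → ℕ) (r x vx vy : ℕ) :
    stT χ far 3 r x vx vy =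
    (bif (decide (0 < vx) && decide ((vx - 1).unpair.1 = 0)) &&
        (decide (0 < vy) && decide (0 < (vy - 1).unpair.1)) then
      1 + Nat.pair ((vy - 1).unpair.1 + 1) (max (vx - 1).unpair.2 (vy - 1).unpair.2) else 0) := rfl

theorem stT_4 (χ : ℕ → Bool) (far : ℕ → ℕ) (g r x vx vy : ℕ) :
    stT χ far (g + 4) r x vx vy = 0 := by
  unfold stT
  simp

theorem getD_rg (f : ℕ → ℕ) (n x : ℕ) (hx : x < n) : ((List.range n).map f).getD x 0 = f x := by
  rw [List.getD_eq_getElem?_getD, List.getElem?_map, List.getElem?_range hx]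
  rfl

theorem infT_rec (L : Sig) (χ : ℕ → Bool) (hχ : ∀ n, χ n = true ↔ n ∈ L.fn) (g r : ℕ) :
    stT χ L.far g r r.unpair.1
      (((List.range (Nat.pair g r)).map (infT L)).getD r.unpair.1 0)
      (((List.range (Nat.pair g r)).map (infT L)).getD r.unpair.2 0) = infT L (Nat.pair g r) := by
  rcases g with _ | g
  · rw [stT_0]
    show _ = infT L (Tr.var r).code
    rw [infT_code, FT_ok (t := Tr.var r) trivial]
    rfl
  have hlt : r < Nat.pair (g + 1) r := by
    have := Nat.add_le_pair (g + 1) r
    omega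
  rw [getD_rg _ _ _ (lt_of_le_of_lt (Nat.unpair_left_le r) hlt),
    getD_rg _ _ _ (lt_of_le_of_lt (Nat.unpair_right_le r) hlt)]
  rcases g with _ | g
  · rw [Nat.zero_add, stT_1]
    obtain ⟨x, y, rfl⟩ : ∃ x y, r = Nat.pair x y :=
      ⟨r.unpair.1, r.unpair.2, (Nat.pair_unpair r).symm⟩
    rw [Nat.unpair_pair]
    show (bif χ x && (decide (0 < infT L y) && decide ((infT L y - 1).unpair.1 = L.far x + 1)) then
      1 + Nat.pair 0 (infT L y - 1).unpair.2 else 0) = _
    by_cases h : ∃ s : Tr, s.code = y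
    · obtain ⟨s, rfl⟩ := h
      show _ = infT L (Tr.app x s).code
      rw [infT_code, infT_code]
      by_cases h1 : OkT L s
      · rw [FT_ok h1, Nat.add_sub_cancel_left, Nat.unpair_pair]
        by_cases h2 : x ∈ L.fn ∧ knd s = L.far x + 1
        · rw [FT_ok (show OkT L (Tr.app x s) from ⟨h2.1, h1, h2.2⟩), (hχ x).2 h2.1]
          simp [h2.2, knd, bnd]
        · rw [FT_not (show ¬ OkT L (Tr.app x s) from fun h3 => h2 ⟨h3.1, h3.2.2⟩)]
          by_cases h3 : x ∈ L.fn
          · have h4 : knd s ≠ L.far x + 1 := fun h4 => h2 ⟨h3, h4⟩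
            simp [h4]
          · have h4 : χ x = false := by
              rw [← Bool.not_eq_true, hχ]
              exact h3
            simp [h4]
      · rw [FT_not h1, FT_not (show ¬ OkT L (Tr.app x s) from fun h3 => h1 h3.2.1)]
        simp
    · rw [infT_not L y h, infT_not L (Nat.pair (0 + 1) (Nat.pair x y)) ?_]
      · simp
      · rintro ⟨t, ht⟩
        cases t <;> simp [Tr.code, Nat.pair_eq_pair] at ht
        exact h ⟨_, ht.2⟩
  rcases g with _ | g
  · show stT χ L.far 2 r _ _ _ = _
    rw [stT_2]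
    by_cases h : r = 0
    · subst h
      show _ = infT L (Tr.nil).code
      rw [infT_code, FT_ok (t := Tr.nil) trivial]
      rfl
    · rw [infT_not L (Nat.pair (0 + 1 + 1) r) ?_]
      · simp [h]
      · rintro ⟨t, ht⟩
        cases t <;> simp [Tr.code, Nat.pair_eq_pair] at ht
        exact h ht.symm
  rcases g with _ | g
  · show stT χ L.far 3 r _ _ _ = _
    rw [stT_3]
    obtain ⟨x, y, rfl⟩ : ∃ x y, r = Nat.pair x y :=
      ⟨r.unpair.1, r.unpair.2, (Nat.pair_unpair r).symm⟩
    rw [Nat.unpair_pair]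
    show (bif (decide (0 < infT L x) && decide ((infT L x - 1).unpair.1 = 0)) &&
        (decide (0 < infT L y) && decide (0 < (infT L y - 1).unpair.1)) then
      1 + Nat.pair ((infT L y - 1).unpair.1 + 1)
        (max (infT L x - 1).unpair.2 (infT L y - 1).unpair.2) else 0) = _
    by_cases hx : ∃ s : Tr, s.code = x
    · obtain ⟨t, rfl⟩ := hx
      by_cases hy : ∃ s : Tr, s.code = y
      · obtain ⟨s, rfl⟩ := hy
        show _ = infT L (Tr.cons t s).code
        rw [infT_code, infT_code, infT_code]
        by_cases h1 : OkT L t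
        · by_cases h2 : OkT L s
          · rw [FT_ok h1, FT_ok h2, Nat.add_sub_cancel_left, Nat.add_sub_cancel_left,
              Nat.unpair_pair, Nat.unpair_pair]
            by_cases h3 : knd t = 0
            · by_cases h4 : 0 < knd s
              · rw [FT_ok (show OkT L (Tr.cons t s) from ⟨⟨h1, h3⟩, h2, h4⟩)]
                simp [h3, h4, knd, bnd]
              · rw [FT_not (show ¬ OkT L (Tr.cons t s) from fun h5 => h4 h5.2.2)]
                simp [h4]
            · rw [FT_not (show ¬ OkT L (Tr.cons t s) from fun h5 => h3 h5.1.2)]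
              simp [h3]
          · rw [FT_not h2, FT_not (show ¬ OkT L (Tr.cons t s) from fun h5 => h2 h5.2.1)]
            simp
        · rw [FT_not h1, FT_not (show ¬ OkT L (Tr.cons t s) from fun h5 => h1 h5.1.1)]
          simp
      · rw [infT_not L y hy, infT_not L (Nat.pair (0 + 1 + 1 + 1) (Nat.pair t.code y)) ?_]
        · simp
        · rintro ⟨u, hu⟩
          cases u <;> simp [Tr.code, Nat.pair_eq_pair] at hu
          exact hy ⟨_, hu.2⟩
    · rw [infT_not L x hx, infT_not L (Nat.pair (0 + 1 + 1 + 1) (Nat.pair x y)) ?_]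
      · simp
      · rintro ⟨u, hu⟩
        cases u <;> simp [Tr.code, Nat.pair_eq_pair] at hu
        exact hx ⟨_, hu.1⟩
  · rw [show g + 1 + 1 + 1 + 1 = g + 4 by ring, stT_4, infT_not]
    rintro ⟨u, hu⟩
    cases u <;> simp [Tr.code, Nat.pair_eq_pair] at hu

/-! ### Formulas -/

/-- bound for the free variables -/
def bndF : Fm → ℕ
  | .eq s t => max (bnd s) (bnd t)
  | .rel _ a => bnd a
  | .neg φ => bndF φ
  | .and φ ψ => max (bndF φ) (bndF ψ)
  | .all φ => bndF φ - 1

theorem bd_iff (φ : Fm) : ∀ k : ℕ, φ.Bd k ↔ bndF φ ≤ k := by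
  induction φ with
  | eq s t =>
    intro k
    show (s.VarsIn (Set.Iio k) ∧ t.VarsIn (Set.Iio k)) ↔ max (bnd s) (bnd t) ≤ k
    rw [varsIn_iff, varsIn_iff, max_le_iff]
  | rel R a => exact fun k => varsIn_iff a k
  | neg φ ih => exact ih
  | and φ ψ ih1 ih2 =>
    intro k
    show (φ.Bd k ∧ ψ.Bd k) ↔ max (bndF φ) (bndF ψ) ≤ k
    rw [ih1, ih2, max_le_iff]
  | all φ ih =>
    intro k
    show φ.Bd (k + 1) ↔ bndF φ - 1 ≤ k
    rw [ih]
    omega

open Classical in
/-- the information on a formula -/
noncomputable def FF (L : Sig) (φ : Fm) : ℕ := if φ.Wf L then 1 + bndF φ else 0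

open Classical in
/-- the information on a number -/
noncomputable def infF (L : Sig) (n : ℕ) : ℕ :=
  if h : ∃ φ : Fm, φ.code = n then FF L h.choose else 0

theorem infF_code (L : Sig) (φ : Fm) : infF L φ.code = FF L φ := by
  have h : ∃ s : Fm, s.code = φ.code := ⟨φ, rfl⟩
  unfold infF
  rw [dif_pos h, Fm_code_inj _ _ h.choose_spec]

theorem infF_not (L : Sig) (n : ℕ) (h : ¬ ∃ φ : Fm, φ.code = n) : infF L n = 0 := by
  unfold infF
  rw [dif_neg h]

theorem FF_ok {L : Sig} {φ : Fm} (h : φ.Wf L) : FF L φ = 1 + bndF φ := by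
  unfold FF
  rw [if_pos h]

theorem FF_not {L : Sig} {φ : Fm} (h : ¬ φ.Wf L) : FF L φ = 0 := by
  unfold FF
  rw [if_neg h]

/-- the step of the recursion for formulas -/
def stF (χ : ℕ → Bool) (rar : ℕ → ℕ) (g x ix iy vx vy vr : ℕ) : ℕ :=
  bif decide (g = 0) then
    (bif (decide (0 < ix) && decide ((ix - 1).unpair.1 = 0)) &&
        (decide (0 < iy) && decide ((iy - 1).unpair.1 = 0)) then
      1 + max (ix - 1).unpair.2 (iy - 1).unpair.2 else 0)
  else bif decide (g = 1) then
    (bif χ x && (decide (0 < iy) && decide ((iy - 1).unpair.1 = rar x + 1)) then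
      1 + (iy - 1).unpair.2 else 0)
  else bif decide (g = 2) then vr
  else bif decide (g = 3) then (bif decide (0 < vx) && decide (0 < vy) then max vx vy else 0)
  else bif decide (g = 4) then (bif decide (0 < vr) then 1 + (vr - 1 - 1) else 0)
  else 0

theorem stF_0 (χ : ℕ → Bool) (rar : ℕ → ℕ) (x ix iy vx vy vr : ℕ) :
    stF χ rar 0 x ix iy vx vy vr =
    (bif (decide (0 < ix) && decide ((ix - 1).unpair.1 = 0)) &&
        (decide (0 < iy) && decide ((iy - 1).unpair.1 = 0)) then
      1 + max (ix - 1).unpair.2 (iy - 1).unpair.2 else 0) := rfl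

theorem stF_1 (χ : ℕ → Bool) (rar : ℕ → ℕ) (x ix iy vx vy vr : ℕ) :
    stF χ rar 1 x ix iy vx vy vr =
    (bif χ x && (decide (0 < iy) && decide ((iy - 1).unpair.1 = rar x + 1)) then
      1 + (iy - 1).unpair.2 else 0) := rfl

theorem stF_2 (χ : ℕ → Bool) (rar : ℕ → ℕ) (x ix iy vx vy vr : ℕ) :
    stF χ rar 2 x ix iy vx vy vr = vr := rfl

theorem stF_3 (χ : ℕ → Bool) (rar : ℕ → ℕ) (x ix iy vx vy vr : ℕ) :
    stF χ rar 3 x ix iy vx vy vr =
      (bif decide (0 < vx) && decide (0 < vy) then max vx vy else 0) := rfl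

theorem stF_4 (χ : ℕ → Bool) (rar : ℕ → ℕ) (x ix iy vx vy vr : ℕ) :
    stF χ rar 4 x ix iy vx vy vr = (bif decide (0 < vr) then 1 + (vr - 1 - 1) else 0) := rfl

theorem stF_5 (χ : ℕ → Bool) (rar : ℕ → ℕ) (g x ix iy vx vy vr : ℕ) :
    stF χ rar (g + 5) x ix iy vx vy vr = 0 := by
  unfold stF
  simp

theorem infF_rec (L : Sig) (χ : ℕ → Bool) (hχ : ∀ n, χ n = true ↔ n ∈ L.rel) (g r : ℕ) :
    stF χ L.rar g r.unpair.1 (infT L r.unpair.1) (infT L r.unpair.2)
      (((List.range (Nat.pair g r)).map (infF L)).getD r.unpair.1 0)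
      (((List.range (Nat.pair g r)).map (infF L)).getD r.unpair.2 0)
      (((List.range (Nat.pair g r)).map (infF L)).getD r 0) = infF L (Nat.pair g r) := by
  rcases g with _ | g
  · rw [stF_0]
    obtain ⟨x, y, rfl⟩ : ∃ x y, r = Nat.pair x y :=
      ⟨r.unpair.1, r.unpair.2, (Nat.pair_unpair r).symm⟩
    rw [Nat.unpair_pair]
    show (bif (decide (0 < infT L x) && decide ((infT L x - 1).unpair.1 = 0)) &&
        (decide (0 < infT L y) && decide ((infT L y - 1).unpair.1 = 0)) then
      1 + max (infT L x - 1).unpair.2 (infT L y - 1).unpair.2 else 0) = _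
    by_cases hx : ∃ s : Tr, s.code = x
    · obtain ⟨t, rfl⟩ := hx
      by_cases hy : ∃ s : Tr, s.code = y
      · obtain ⟨s, rfl⟩ := hy
        show _ = infF L (Fm.eq t s).code
        rw [infF_code, infT_code, infT_code]
        have key : (Fm.eq t s).Wf L ↔ (OkT L t ∧ knd t = 0) ∧ (OkT L s ∧ knd s = 0) := by
          show (IsT L none t ∧ IsT L none s) ↔ _
          rw [(isT_iff L t).1, (isT_iff L s).1]
        by_cases h1 : OkT L t
        · by_cases h2 : OkT L s
          · rw [FT_ok h1, FT_ok h2, Nat.add_sub_cancel_left, Nat.add_sub_cancel_left,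
              Nat.unpair_pair, Nat.unpair_pair]
            by_cases h3 : knd t = 0
            · by_cases h4 : knd s = 0
              · rw [FF_ok (key.2 ⟨⟨h1, h3⟩, h2, h4⟩)]
                simp [h3, h4, bndF]
              · rw [FF_not (fun h5 => h4 (key.1 h5).2.2)]
                simp [h4]
            · rw [FF_not (fun h5 => h3 (key.1 h5).1.2)]
              simp [h3]
          · rw [FT_not h2, FF_not (fun h5 => h2 (key.1 h5).2.1)]
            simp
        · rw [FT_not h1, FF_not (fun h5 => h1 (key.1 h5).1.1)]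
          simp
      · rw [infT_not L y hy, infF_not L (Nat.pair 0 (Nat.pair t.code y)) ?_]
        · simp
        · rintro ⟨u, hu⟩
          cases u <;> simp [Fm.code, Nat.pair_eq_pair] at hu
          exact hy ⟨_, hu.2⟩
    · rw [infT_not L x hx, infF_not L (Nat.pair 0 (Nat.pair x y)) ?_]
      · simp
      · rintro ⟨u, hu⟩
        cases u <;> simp [Fm.code, Nat.pair_eq_pair] at hu
        exact hx ⟨_, hu.1⟩
  have hlt : r < Nat.pair (g + 1) r := by
    have := Nat.add_le_pair (g + 1) r
    omega
  rw [getD_rg _ _ _ (lt_of_le_of_lt (Nat.unpair_left_le r) hlt),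
    getD_rg _ _ _ (lt_of_le_of_lt (Nat.unpair_right_le r) hlt), getD_rg _ _ _ hlt]
  rcases g with _ | g
  · rw [Nat.zero_add, stF_1]
    obtain ⟨x, y, rfl⟩ : ∃ x y, r = Nat.pair x y :=
      ⟨r.unpair.1, r.unpair.2, (Nat.pair_unpair r).symm⟩
    rw [Nat.unpair_pair]
    show (bif χ x && (decide (0 < infT L y) && decide ((infT L y - 1).unpair.1 = L.rar x + 1)) then
      1 + (infT L y - 1).unpair.2 else 0) = _
    by_cases h : ∃ s : Tr, s.code = y
    · obtain ⟨s, rfl⟩ := h
      show _ = infF L (Fm.rel x s).code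
      rw [infF_code, infT_code]
      have key : (Fm.rel x s).Wf L ↔ x ∈ L.rel ∧ (OkT L s ∧ knd s = L.rar x + 1) := by
        show (x ∈ L.rel ∧ IsT L (some (L.rar x)) s) ↔ _
        rw [(isT_iff L s).2]
      by_cases h1 : OkT L s
      · rw [FT_ok h1, Nat.add_sub_cancel_left, Nat.unpair_pair]
        by_cases h3 : x ∈ L.rel
        · by_cases h4 : knd s = L.rar x + 1
          · rw [FF_ok (key.2 ⟨h3, h1, h4⟩), (hχ x).2 h3]
            simp [h4, bndF]
          · rw [FF_not (fun h5 => h4 (key.1 h5).2.2)]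
            simp [h4]
        · have h4 : χ x = false := by
            rw [← Bool.not_eq_true, hχ]
            exact h3
          rw [FF_not (fun h5 => h3 (key.1 h5).1)]
          simp [h4]
      · rw [FT_not h1, FF_not (fun h5 => h1 (key.1 h5).2.1)]
        simp
    · rw [infT_not L y h, infF_not L (Nat.pair (0 + 1) (Nat.pair x y)) ?_]
      · simp
      · rintro ⟨t, ht⟩
        cases t <;> simp [Fm.code, Nat.pair_eq_pair] at ht
        exact h ⟨_, ht.2⟩
  rcases g with _ | g
  · show stF χ L.rar 2 _ _ _ _ _ (infF L r) = _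
    rw [stF_2]
    by_cases h : ∃ s : Fm, s.code = r
    · obtain ⟨s, rfl⟩ := h
      show _ = infF L (Fm.neg s).code
      rw [infF_code, infF_code]
      rfl
    · rw [infF_not L r h, infF_not L (Nat.pair (0 + 1 + 1) r) ?_]
      rintro ⟨t, ht⟩
      cases t <;> simp [Fm.code, Nat.pair_eq_pair] at ht
      exact h ⟨_, ht⟩
  rcases g with _ | g
  · show stF χ L.rar 3 _ _ _ _ _ _ = _
    rw [stF_3]
    obtain ⟨x, y, rfl⟩ : ∃ x y, r = Nat.pair x y :=
      ⟨r.unpair.1, r.unpair.2, (Nat.pair_unpair r).symm⟩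
    rw [Nat.unpair_pair]
    show (bif decide (0 < infF L x) && decide (0 < infF L y) then max (infF L x) (infF L y)
      else 0) = _
    by_cases hx : ∃ s : Fm, s.code = x
    · obtain ⟨t, rfl⟩ := hx
      by_cases hy : ∃ s : Fm, s.code = y
      · obtain ⟨s, rfl⟩ := hy
        show _ = infF L (Fm.and t s).code
        rw [infF_code, infF_code, infF_code]
        by_cases h1 : t.Wf L
        · by_cases h2 : s.Wf L
          · rw [FF_ok h1, FF_ok h2, FF_ok (show (Fm.and t s).Wf L from ⟨h1, h2⟩)]
            have h3 : max (1 + bndF t) (1 + bndF s) = 1 + max (bndF t) (bndF s) := by omega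
            simp [bndF, h3]
          · rw [FF_not h2, FF_not (show ¬ (Fm.and t s).Wf L from fun h5 => h2 h5.2)]
            simp
        · rw [FF_not h1, FF_not (show ¬ (Fm.and t s).Wf L from fun h5 => h1 h5.1)]
          simp
      · rw [infF_not L y hy, infF_not L (Nat.pair (0 + 1 + 1 + 1) (Nat.pair t.code y)) ?_]
        · simp
        · rintro ⟨u, hu⟩
          cases u <;> simp [Fm.code, Nat.pair_eq_pair] at hu
          exact hy ⟨_, hu.2⟩
    · rw [infF_not L x hx, infF_not L (Nat.pair (0 + 1 + 1 + 1) (Nat.pair x y)) ?_]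
      · simp
      · rintro ⟨u, hu⟩
        cases u <;> simp [Fm.code, Nat.pair_eq_pair] at hu
        exact hx ⟨_, hu.1⟩
  rcases g with _ | g
  · show stF χ L.rar 4 _ _ _ _ _ (infF L r) = _
    rw [stF_4]
    by_cases h : ∃ s : Fm, s.code = r
    · obtain ⟨s, rfl⟩ := h
      show _ = infF L (Fm.all s).code
      rw [infF_code, infF_code]
      by_cases h1 : s.Wf L
      · rw [FF_ok h1, FF_ok (show (Fm.all s).Wf L from h1), Nat.add_sub_cancel_left]
        simp [bndF]
      · rw [FF_not h1, FF_not (show ¬ (Fm.all s).Wf L from h1)]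
        simp
    · rw [infF_not L r h, infF_not L (Nat.pair (0 + 1 + 1 + 1 + 1) r) ?_]
      · simp
      · rintro ⟨t, ht⟩
        cases t <;> simp [Fm.code, Nat.pair_eq_pair] at ht
        exact h ⟨_, ht⟩
  · rw [show g + 1 + 1 + 1 + 1 + 1 = g + 5 by ring, stF_5, infF_not]
    rintro ⟨u, hu⟩
    cases u <;> simp [Fm.code, Nat.pair_eq_pair] at hu

/-! ### Computability -/

section comp

variable {α : Type} [Primcodable α]

theorem c_add {f g : α → ℕ} (hf : Computable f) (hg : Computable g) :
    Computable fun a => f a + g a := Primrec.nat_add.to_comp.comp hf hg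

theorem c_sub {f g : α → ℕ} (hf : Computable f) (hg : Computable g) :
    Computable fun a => f a - g a := Primrec.nat_sub.to_comp.comp hf hg

theorem c_max {f g : α → ℕ} (hf : Computable f) (hg : Computable g) :
    Computable fun a => max (f a) (g a) := Primrec.nat_max.to_comp.comp hf hg

theorem c_pair {f g : α → ℕ} (hf : Computable f) (hg : Computable g) :
    Computable fun a => Nat.pair (f a) (g a) := Primrec₂.natPair.to_comp.comp hf hg

theorem c_fst {f : α → ℕ} (hf : Computable f) : Computable fun a => (f a).unpair.1 :=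
  Computable.fst.comp (Primrec.unpair.to_comp.comp hf)

theorem c_snd {f : α → ℕ} (hf : Computable f) : Computable fun a => (f a).unpair.2 :=
  Computable.snd.comp (Primrec.unpair.to_comp.comp hf)

theorem c_eq {f g : α → ℕ} (hf : Computable f) (hg : Computable g) :
    Computable fun a => decide (f a = g a) := (Primrec.eq (α := ℕ)).decide.to_comp.comp hf hg

theorem c_lt {f g : α → ℕ} (hf : Computable f) (hg : Computable g) :
    Computable fun a => decide (f a < g a) := Primrec.nat_lt.decide.to_comp.comp hf hg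

theorem c_and {f g : α → Bool} (hf : Computable f) (hg : Computable g) :
    Computable fun a => (f a && g a) := Primrec.and.to_comp.comp hf hg

theorem c_getD {f : α → List ℕ} {n : α → ℕ} (hf : Computable f) (hn : Computable n) :
    Computable fun a => (f a).getD (n a) 0 :=
  (Primrec.list_getD 0).to_comp.comp hf hn

theorem c_0 : Computable fun _ : α => (0 : ℕ) := Computable.const 0

theorem c_1 : Computable fun _ : α => (1 : ℕ) := Computable.const 1

theorem c_stT {χ : ℕ → Bool} {far : ℕ → ℕ} (hχ : Computable χ) (hfar : Computable far)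
    {g r x vx vy : α → ℕ} (hg : Computable g) (hr : Computable r) (hx : Computable x)
    (hvx : Computable vx) (hvy : Computable vy) :
    Computable fun a => stT χ far (g a) (r a) (x a) (vx a) (vy a) := by
  unfold stT
  have kx : Computable fun a => (vx a - 1).unpair.1 := c_fst (c_sub hvx c_1)
  have bx : Computable fun a => (vx a - 1).unpair.2 := c_snd (c_sub hvx c_1)
  have ky : Computable fun a => (vy a - 1).unpair.1 := c_fst (c_sub hvy c_1)
  have by' : Computable fun a => (vy a - 1).unpair.2 := c_snd (c_sub hvy c_1)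
  have i1 : Computable fun a => (bif χ (x a) && (decide (0 < vy a) &&
      decide ((vy a - 1).unpair.1 = far (x a) + 1)) then
      1 + Nat.pair 0 (vy a - 1).unpair.2 else 0) :=
    Computable.cond (c_and (hχ.comp hx) (c_and (c_lt c_0 hvy) (c_eq ky (c_add (hfar.comp hx) c_1))))
      (c_add c_1 (c_pair c_0 by')) c_0
  have i2 : Computable fun a => (bif decide (r a = 0) then 1 + Nat.pair 1 0 else 0) :=
    Computable.cond (c_eq hr c_0) (Computable.const _) c_0
  have i3 : Computable fun a => (bif (decide (0 < vx a) && decide ((vx a - 1).unpair.1 = 0)) &&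
        (decide (0 < vy a) && decide (0 < (vy a - 1).unpair.1)) then
      1 + Nat.pair ((vy a - 1).unpair.1 + 1) (max (vx a - 1).unpair.2 (vy a - 1).unpair.2)
      else 0) :=
    Computable.cond (c_and (c_and (c_lt c_0 hvx) (c_eq kx c_0)) (c_and (c_lt c_0 hvy) (c_lt c_0 ky)))
      (c_add c_1 (c_pair (c_add ky c_1) (c_max bx by'))) c_0
  exact Computable.cond (c_eq hg c_0) (c_add c_1 (c_pair c_0 (c_add hr c_1)))
    (Computable.cond (c_eq hg c_1) i1
      (Computable.cond (c_eq hg (Computable.const 2)) i2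
        (Computable.cond (c_eq hg (Computable.const 3)) i3 c_0)))

theorem c_stF {χ : ℕ → Bool} {rar : ℕ → ℕ} (hχ : Computable χ) (hrar : Computable rar)
    {g x ix iy vx vy vr : α → ℕ} (hg : Computable g) (hx : Computable x)
    (hix : Computable ix) (hiy : Computable iy) (hvx : Computable vx) (hvy : Computable vy)
    (hvr : Computable vr) :
    Computable fun a => stF χ rar (g a) (x a) (ix a) (iy a) (vx a) (vy a) (vr a) := by
  unfold stF
  have kx : Computable fun a => (ix a - 1).unpair.1 := c_fst (c_sub hix c_1)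
  have bx : Computable fun a => (ix a - 1).unpair.2 := c_snd (c_sub hix c_1)
  have ky : Computable fun a => (iy a - 1).unpair.1 := c_fst (c_sub hiy c_1)
  have by' : Computable fun a => (iy a - 1).unpair.2 := c_snd (c_sub hiy c_1)
  have i0 : Computable fun a => (bif (decide (0 < ix a) && decide ((ix a - 1).unpair.1 = 0)) &&
        (decide (0 < iy a) && decide ((iy a - 1).unpair.1 = 0)) then
      1 + max (ix a - 1).unpair.2 (iy a - 1).unpair.2 else 0) :=
    Computable.cond (c_and (c_and (c_lt c_0 hix) (c_eq kx c_0)) (c_and (c_lt c_0 hiy) (c_eq ky c_0)))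
      (c_add c_1 (c_max bx by')) c_0
  have i1 : Computable fun a => (bif χ (x a) && (decide (0 < iy a) &&
      decide ((iy a - 1).unpair.1 = rar (x a) + 1)) then 1 + (iy a - 1).unpair.2 else 0) :=
    Computable.cond (c_and (hχ.comp hx) (c_and (c_lt c_0 hiy) (c_eq ky (c_add (hrar.comp hx) c_1))))
      (c_add c_1 by') c_0
  have i3 : Computable fun a => (bif decide (0 < vx a) && decide (0 < vy a) then
      max (vx a) (vy a) else 0) :=
    Computable.cond (c_and (c_lt c_0 hvx) (c_lt c_0 hvy)) (c_max hvx hvy) c_0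
  have i4 : Computable fun a => (bif decide (0 < vr a) then 1 + (vr a - 1 - 1) else 0) :=
    Computable.cond (c_lt c_0 hvr) (c_add c_1 (c_sub (c_sub hvr c_1) c_1)) c_0
  exact Computable.cond (c_eq hg c_0) i0
    (Computable.cond (c_eq hg c_1) i1
      (Computable.cond (c_eq hg (Computable.const 2)) hvr
        (Computable.cond (c_eq hg (Computable.const 3)) i3
          (Computable.cond (c_eq hg (Computable.const 4)) i4 c_0))))

end comp

theorem chi {P : ℕ → Prop} (h : ComputablePred P) :
    ∃ χ : ℕ → Bool, Computable χ ∧ ∀ n, χ n = true ↔ P n := by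
  obtain ⟨hd, hc⟩ := h
  exact ⟨fun n => decide (P n), hc, fun n => decide_eq_true_iff⟩

theorem c_infT (L : Sig) (hL : L.Comp) : Computable (infT L) := by
  obtain ⟨χ, hχ, hχ'⟩ := chi hL.1
  have hl : Computable fun q : Unit × List ℕ => q.2.length :=
    Computable.list_length.comp Computable.snd
  have hg := c_fst hl
  have hr := c_snd hl
  have hx := c_fst hr
  have hy := c_snd hr
  have hst := c_stT hχ hL.2.2.1 hg hr hx (c_getD Computable.snd hx) (c_getD Computable.snd hy)
  have h2 : Computable₂ fun (_ : Unit) (l : List ℕ) => some (stT χ L.far l.length.unpair.1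
      l.length.unpair.2 l.length.unpair.2.unpair.1
      (l.getD l.length.unpair.2.unpair.1 0) (l.getD l.length.unpair.2.unpair.2 0)) :=
    Computable.option_some.comp hst
  have h3 := Computable.nat_strong_rec (fun (_ : Unit) n => infT L n) h2 fun _ n => by
    have h4 := infT_rec L χ hχ' n.unpair.1 n.unpair.2
    rw [Nat.pair_unpair] at h4
    rw [List.length_map, List.length_range]
    exact congrArg some h4
  exact h3.comp (Computable.const ()) Computable.id

theorem c_infF (L : Sig) (hL : L.Comp) : Computable (infF L) := by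
  obtain ⟨χ, hχ, hχ'⟩ := chi hL.2.1
  have hI := c_infT L hL
  have hl : Computable fun q : Unit × List ℕ => q.2.length :=
    Computable.list_length.comp Computable.snd
  have hg := c_fst hl
  have hr := c_snd hl
  have hx := c_fst hr
  have hy := c_snd hr
  have hst := c_stF hχ hL.2.2.2 hg hx (hI.comp hx) (hI.comp hy) (c_getD Computable.snd hx)
    (c_getD Computable.snd hy) (c_getD Computable.snd hr)
  have h2 : Computable₂ fun (_ : Unit) (l : List ℕ) => some (stF χ L.rar l.length.unpair.1
      l.length.unpair.2.unpair.1 (infT L l.length.unpair.2.unpair.1)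
      (infT L l.length.unpair.2.unpair.2)
      (l.getD l.length.unpair.2.unpair.1 0) (l.getD l.length.unpair.2.unpair.2 0)
      (l.getD l.length.unpair.2 0)) :=
    Computable.option_some.comp hst
  have h3 := Computable.nat_strong_rec (fun (_ : Unit) n => infF L n) h2 fun _ n => by
    have h4 := infF_rec L χ hχ' n.unpair.1 n.unpair.2
    rw [Nat.pair_unpair] at h4
    rw [List.length_map, List.length_range]
    exact congrArg some h4
  exact h3.comp (Computable.const ()) Computable.id

end P_WF

open P_WF in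
theorem prf_wf : S_wf := by
  intro L hL
  have h1 : Computable fun n => decide (infF L n = 1) := c_eq (c_infF L hL) c_1
  have h2 : ComputablePred fun n => infF L n = 1 := ⟨inferInstance, h1⟩
  refine h2.of_eq fun n => ?_
  by_cases h : ∃ φ : Fm, φ.code = n
  · obtain ⟨φ, rfl⟩ := h
    rw [infF_code]
    constructor
    · intro h3
      by_cases h4 : φ.Wf L
      · rw [FF_ok h4] at h3
        exact ⟨φ, rfl, h4, (bd_iff φ 0).2 (by omega)⟩
      · rw [FF_not h4] at h3
        omega
    · rintro ⟨ψ, h3, h4, h5⟩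
      rw [Fm_code_inj _ _ h3, FF_ok h4]
      have := (bd_iff ψ 0).1 h5
      omega
  · rw [infF_not L n h]
    constructor
    · intro h3
      omega
    · rintro ⟨ψ, h3, -⟩
      exact absurd ⟨ψ, h3.symm⟩ h

end Pool.Agent.N636.TD
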