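import Pool.Agent.N636.TD.Asm
import Pool.Agent.N636.TD.P_D1
import Pool.Agent.N636.TD.P_D2
import Pool.Agent.N636.TD.P_JB
import Pool.Agent.N636.TD.P_REN
import Pool.Agent.N636.TD.P_REC
import Pool.Agent.N636.TD.P_WF
import Pool.Agent.N636.TD.P_SEM

/-!
# The main theorem
-/

set_option autoImplicit false

namespace Pool.Agent.N636.TD

theorem main : Main :=
  main_of (diag_of prf_d1 prf_d2 prf_idx) prf_re (prf_truth prf_maps prf_ren) prf_wf prf_semS

end Pool.Agent.N636.TD
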