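import Mathlib
import Pool.Agent.N636.TD.Stm
import Pool.Agent.N636.SF.P_SANITY

/-!
# Indices for Turing reductions
-/

set_option autoImplicit false

namespace Pool.Agent.N636.TD

open Pool.Agent.N636.SF (seg attempt Phi jump IsIndex)

namespace Idx

theorem phi_unique {X : Set ℕ} {e n y y' : ℕ} (h : Phi X e n y) (h' : Phi X e n y') : y = y' := by
  obtain ⟨u, hu, hl⟩ := h
  obtain ⟨u', hu', hl'⟩ := h'
  have : u = u' := by
    rcases lt_trichotomy u u' with h | h | h
    · rw [hl' u h] at hu; simp at hu
    · exact h
    · rw [hl u' h] at hu'; simp at hu'
  subst this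
  rw [hu] at hu'
  simpa using hu'

end Idx

open Classical in
theorem prf_idx : S_idx := by
  intro A B
  unfold TRed TuringReducible
  have h := Pool.Agent.N636.SF.phi_iff_recursiveIn B (chr A)
  have hB : (fun n => Part.some (if n ∈ B then 1 else 0) : ℕ →. ℕ) = chr B := by
    funext n
    unfold chr
    rfl
  rw [hB] at h
  refine (h.symm : RecursiveIn {chr B} (chr A) ↔ _).trans ?_
  refine exists_congr fun e => ?_
  constructor
  · intro he n
    constructor
    · intro hn
      rw [he n 1]
      unfold chr
      simp [hn]
    · intro hn
      rw [he n 0]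
      unfold chr
      simp [hn]
  · intro he n y
    unfold chr
    by_cases hn : n ∈ A
    · simp only [hn, if_true, Part.mem_some_iff]
      constructor
      · intro hy
        exact Idx.phi_unique hy ((he n).1 hn)
      · rintro rfl
        exact (he n).1 hn
    · simp only [hn, if_false, Part.mem_some_iff]
      constructor
      · intro hy
        exact Idx.phi_unique hy ((he n).2 hn)
      · rintro rfl
        exact (he n).2 hn

end Pool.Agent.N636.TD
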