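import Mathlib
import Pool.Agent.N636.TD.Idx
import Pool.Agent.Helper583.TCJ2

/-!
# Assembly of the theorem
-/

set_option autoImplicit false

namespace Pool.Agent.N636.TD

open Pool.Agent.N636.SF (seg attempt Phi jump IsIndex cons)
open Pool.Agent.Helper583.TC.J2

namespace Asm

open Classical in
/-- the characteristic function as a function -/
noncomputable def bf (O : Set ℕ) (n : ℕ) : ℕ := if n ∈ O then 1 else 0

theorem chr_eq (O : Set ℕ) : chr O = ((bf O : ℕ → ℕ) : ℕ →. ℕ) := rfl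

theorem recIn_computable (g : ℕ → ℕ) {h : ℕ → ℕ} (hh : Computable h) :
    Nat.RecursiveIn {(g : ℕ →. ℕ)} (fun n => Part.some (h n)) :=
  Nat.Partrec.recursiveIn (Partrec.nat_iff.1 hh)

theorem tred_and {O A : Set ℕ} {h1 h2 : ℕ → ℕ} (c1 : Computable h1) (c2 : Computable h2)
    (hA : ∀ z, z ∈ A ↔ h1 z ∈ O ∧ h2 z ∈ O) : TRed A O := by
  unfold TRed TuringReducible
  rw [RecursiveIn.iff_nat, chr_eq O]
  have r1 : Nat.RecursiveIn {((bf O : ℕ → ℕ) : ℕ →. ℕ)} (fun n => Part.some (bf O (h1 n))) :=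
    NF.recIn_comp _ (NF.recIn_oracle _) (recIn_computable _ c1)
  have r2 : Nat.RecursiveIn {((bf O : ℕ → ℕ) : ℕ →. ℕ)} (fun n => Part.some (bf O (h2 n))) :=
    NF.recIn_comp _ (NF.recIn_oracle _) (recIn_computable _ c2)
  have hm : Primrec (fun z : ℕ => z.unpair.1 * z.unpair.2) :=
    Primrec.nat_mul.comp (Primrec.fst.comp Primrec.unpair) (Primrec.snd.comp Primrec.unpair)
  have r3 := NF.recIn_comp _ (NF.recIn_primrec (bf O) hm) (NF.recIn_pair _ r1 r2)
  refine r3.of_eq fun n => ?_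
  unfold chr bf
  simp only [Nat.unpair_pair]
  congr 1
  by_cases a1 : h1 n ∈ O <;> by_cases a2 : h2 n ∈ O <;> simp [hA, a1, a2]

/-- membership in the c.e. sets -/
theorem re_We : REPred fun z : ℕ => z.unpair.2 ∈ We z.unpair.1.unpair.2 := by
  have h1 : Partrec (fun z : ℕ => (Nat.Partrec.Code.eval
      (Denumerable.ofNat Nat.Partrec.Code z.unpair.1.unpair.2) z.unpair.2).bind
        (fun y => if y = 1 then Part.some () else Part.none)) := by
    refine Partrec.bind ?_ ?_
    · refine Nat.Partrec.Code.eval_part.comp ?_ ?_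
      · exact (Computable.ofNat _).comp (Primrec.snd.comp (Primrec.unpair.comp
          (Primrec.fst.comp Primrec.unpair))).to_comp
      · exact (Primrec.snd.comp Primrec.unpair).to_comp
    · have h2 : Computable (fun p : ℕ × ℕ => if p.2 = 1 then some () else none) :=
        (Primrec.ite (Primrec.eq.comp Primrec.snd (Primrec.const 1)) (Primrec.const _)
          (Primrec.const _)).to_comp
      refine (h2.ofOption).of_eq ?_
      rintro ⟨a, b⟩
      by_cases h : b = 1
      · simp [h]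
      · simp [h]
  refine (Partrec.dom_re h1).of_eq fun z => ?_
  rw [Part.dom_iff_mem]
  constructor
  · rintro ⟨u, hu⟩
    rw [Part.mem_bind_iff] at hu
    obtain ⟨y, hy, hu⟩ := hu
    by_cases h : y = 1
    · subst h
      exact hy
    · simp [h] at hu
  · intro h
    refine ⟨(), ?_⟩
    rw [Part.mem_bind_iff]
    exact ⟨1, h, by simp⟩

/-- computable sets are of the form `We e` -/
theorem exists_We {A : Set ℕ} (hA : ComputablePred fun n => n ∈ A) : ∃ e, We e = A := by
  obtain ⟨hd, hc⟩ := hA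
  have h1 : Computable (fun n : ℕ => if n ∈ A then 1 else 0) := by
    have := Computable.cond hc (Computable.const 1) (Computable.const 0)
    refine this.of_eq fun n => ?_
    by_cases h : n ∈ A <;> simp [h]
  obtain ⟨c, hc⟩ := Nat.Partrec.Code.exists_code.1 (Partrec.nat_iff.1 h1)
  refine ⟨Encodable.encode c, ?_⟩
  ext n
  unfold We
  simp only [Set.mem_setOf_eq, Denumerable.ofNat_encode]
  rw [hc]
  simp only [PFun.coe_val, Part.mem_some_iff]
  by_cases h : n ∈ A <;> simp [h]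

theorem code_tr_inj : Function.Injective Tr.code := by
  intro s t
  induction s generalizing t with
  | var i => cases t <;> simp [Tr.code]
  | app f a ih =>
    cases t <;> simp [Tr.code]
    intro h1 h2
    exact ⟨h1, ih h2⟩
  | nil => cases t <;> simp [Tr.code]
  | cons a b iha ihb =>
    cases t <;> simp [Tr.code]
    intro h1 h2
    exact ⟨iha h1, ihb h2⟩

theorem code_fm_inj : Function.Injective Fm.code := by
  intro s t
  induction s generalizing t with
  | eq a b =>
    cases t <;> simp [Fm.code]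
    intro h1 h2
    exact ⟨code_tr_inj h1, code_tr_inj h2⟩
  | rel R a =>
    cases t <;> simp [Fm.code]
    intro h1 h2
    exact ⟨h1, code_tr_inj h2⟩
  | neg a ih =>
    cases t <;> simp [Fm.code]
    intro h
    exact ih h
  | and a b iha ihb =>
    cases t <;> simp [Fm.code]
    intro h1 h2
    exact ⟨iha h1, ihb h2⟩
  | all a ih =>
    cases t <;> simp [Fm.code]
    intro h
    exact ih h

end Asm

open Asm

theorem diag_of (hd1 : S_d1) (hd2 : S_d2) (hidx : S_idx) : S_diag := by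
  intro O T hre hT
  refine ⟨Dset T, hd2 O T hre hT, ?_⟩
  rintro i ⟨h1, h2⟩
  obtain ⟨e1, he1⟩ := (hidx _ _).1 h1
  obtain ⟨e2, he2⟩ := (hidx _ _).1 h2
  exact hd1 T i e1 e2 ⟨he1, he2⟩

theorem main_of (hdiag : S_diag) (hre : S_re) (htruth : S_truth) (hwf : S_wf) (hsem : S_semS) :
    Main := by
  obtain ⟨H, hH, hHs⟩ := htruth
  obtain ⟨h1, hc1, hs1⟩ := hre _ re_We
  let T : ℕ → Set ℕ := fun i =>
    {n | n ∈ We i.unpair.2 ∧ H (Nat.pair i.unpair.1 (Nat.pair n 0)) ∈ omegaJump}
  have hTd : ∀ i n, n ∈ T i ↔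
    (n ∈ We i.unpair.2 ∧ H (Nat.pair i.unpair.1 (Nat.pair n 0)) ∈ omegaJump) := fun _ _ => Iff.rfl
  have hT : TRed {z | z.unpair.2 ∈ T z.unpair.1} omegaJump := by
    refine tred_and (h1 := h1)
      (h2 := fun z => H (Nat.pair z.unpair.1.unpair.1 (Nat.pair z.unpair.2 0))) hc1 ?_ ?_
    · refine hH.comp ?_
      have p1 : Primrec (fun z : ℕ => z.unpair.1.unpair.1) :=
        Primrec.fst.comp (Primrec.unpair.comp (Primrec.fst.comp Primrec.unpair))
      have p2 : Primrec (fun z : ℕ => z.unpair.2) := Primrec.snd.comp Primrec.unpair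
      exact (Primrec₂.natPair.comp p1 (Primrec₂.natPair.comp p2 (Primrec.const 0))).to_comp
    · intro z
      show z.unpair.2 ∈ T z.unpair.1 ↔ _
      rw [← hs1 z, hTd]
  obtain ⟨D, hD, hDT⟩ := hdiag omegaJump T hre hT
  refine ⟨D, hD, ?_⟩
  rintro L hL Th hcomp hTD hDT' ⟨M, hM, hMT⟩
  obtain ⟨e, he⟩ := exists_We (A := diagram M) hM.2
  obtain ⟨e', he'⟩ := exists_We (A := M.U) hM.1
  obtain ⟨e'', he''⟩ := exists_We (A := {n | ∃ φ : Fm, n = φ.code ∧ IsSentence L φ}) (hwf L hL)
  have hne : ∃ v : ℕ → ℕ, ∀ i, v i ∈ M.U := by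
    obtain ⟨u, hu⟩ := M.ne
    exact ⟨fun _ => u, fun _ => hu⟩
  have hmem : ∀ φ, IsSentence L φ → (Models M φ ↔ φ ∈ Th) := by
    intro φ hφ
    constructor
    · intro hm
      rcases hcomp.2 φ hφ with h | h
      · exact h
      · obtain ⟨v, hv⟩ := hne
        exact absurd (hm v hv) (hMT _ h v hv)
    · exact hMT φ
  have hTi : T (Nat.pair (Nat.pair e e') e'') = Fm.code '' Th := by
    ext n
    rw [hTd]
    simp only [Nat.unpair_pair]
    rw [he'']
    constructor
    · rintro ⟨⟨φ, rfl, hφ⟩, hn⟩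
      rw [← hHs e e' φ 0, he, he', ← hsem L M φ hφ, hmem φ hφ] at hn
      exact ⟨φ, hn, rfl⟩
    · rintro ⟨φ, hφ, rfl⟩
      have hs := hcomp.1 φ hφ
      refine ⟨⟨φ, rfl, hs⟩, ?_⟩
      rw [← hHs e e' φ 0, he, he', ← hsem L M φ hs, hmem φ hs]
      exact hφ
  refine hDT (Nat.pair (Nat.pair e e') e'') ?_
  rw [hTi]
  exact ⟨hTD, hDT'⟩

end Pool.Agent.N636.TD
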