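import Pool.Agent.N636.SF.Defs

/-!
# Definitions: computable signatures and structures, theories, the set `∅^(ω)`

The language of a signature, Goedel numbers, structures whose universe is a set of natural numbers,
computable structures, complete theories, Turing reducibility (from Mathlib) for sets and the
`ω`-th jump of the empty set. The Turing jump is the one of `Pool.Agent.N636.SF.Defs`.
-/

set_option autoImplicit false

namespace Pool.Agent.N636.TD

open Pool.Agent.N636.SF (cons)

/-! ### Syntax -/

/-- A signature: the function symbols (constants are function symbols of arity `0`) and the relation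
symbols are natural numbers, with given arities. -/
structure Sig where
  /-- the function symbols -/
  fn : Set ℕ
  /-- the relation symbols -/
  rel : Set ℕ
  /-- arities of the function symbols -/
  far : ℕ → ℕ
  /-- arities of the relation symbols -/
  rar : ℕ → ℕ

/-- Computable signatures. -/
def Sig.Comp (L : Sig) : Prop :=
  ComputablePred (fun n => n ∈ L.fn) ∧ ComputablePred (fun n => n ∈ L.rel) ∧
    Computable L.far ∧ Computable L.rar

/-- Raw terms and lists of terms: `var i` is the `i`-th variable, `app f a` is the function symbol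
`f` applied to the list `a` of terms, `nil` is the empty list and `cons t s` is the term `t`
followed by the list `s`. -/
inductive Tr : Type
  | var (i : ℕ)
  | app (f : ℕ) (a : Tr)
  | nil
  | cons (t s : Tr)
  deriving DecidableEq

/-- `IsT L none t` : `t` is a term of `L`; `IsT L (some n) a` : `a` is a list of `n` terms of `L`. -/
inductive IsT (L : Sig) : Option ℕ → Tr → Prop
  | var (i : ℕ) : IsT L none (.var i)
  | app {f : ℕ} {a : Tr} : f ∈ L.fn → IsT L (some (L.far f)) a → IsT L none (.app f a)
  | nil : IsT L (some 0) .nil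
  | cons {n : ℕ} {t s : Tr} : IsT L none t → IsT L (some n) s → IsT L (some (n + 1)) (.cons t s)

/-- Raw formulas, with de Bruijn indices: `all φ` quantifies the variable `0` of `φ`, and the
variable `i` of `all φ` is the variable `i + 1` of `φ`. -/
inductive Fm : Type
  | eq (s t : Tr)
  | rel (R : ℕ) (a : Tr)
  | neg (φ : Fm)
  | and (φ ψ : Fm)
  | all (φ : Fm)
  deriving DecidableEq

/-- The formulas of `L`. -/
def Fm.Wf (L : Sig) : Fm → Prop
  | .eq s t => IsT L none s ∧ IsT L none t
  | .rel R a => R ∈ L.rel ∧ IsT L (some (L.rar R)) a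
  | .neg φ => φ.Wf L
  | .and φ ψ => φ.Wf L ∧ ψ.Wf L
  | .all φ => φ.Wf L

/-- All variables belong to `U`. -/
def Tr.VarsIn (U : Set ℕ) : Tr → Prop
  | .var i => i ∈ U
  | .app _ a => a.VarsIn U
  | .nil => True
  | .cons t s => t.VarsIn U ∧ s.VarsIn U

/-- All free variables are below `k`. -/
def Fm.Bd : Fm → ℕ → Prop
  | .eq s t, k => s.VarsIn (Set.Iio k) ∧ t.VarsIn (Set.Iio k)
  | .rel _ a, k => a.VarsIn (Set.Iio k)
  | .neg φ, k => φ.Bd k
  | .and φ ψ, k => φ.Bd k ∧ ψ.Bd k
  | .all φ, k => φ.Bd (k + 1)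

/-- The sentences of `L`. -/
def IsSentence (L : Sig) (φ : Fm) : Prop := φ.Wf L ∧ φ.Bd 0

/-- Goedel numbers of terms and lists of terms. -/
def Tr.code : Tr → ℕ
  | .var i => Nat.pair 0 i
  | .app f a => Nat.pair 1 (Nat.pair f a.code)
  | .nil => Nat.pair 2 0
  | .cons t s => Nat.pair 3 (Nat.pair t.code s.code)

/-- Goedel numbers of formulas. -/
def Fm.code : Fm → ℕ
  | .eq s t => Nat.pair 0 (Nat.pair s.code t.code)
  | .rel R a => Nat.pair 1 (Nat.pair R a.code)
  | .neg φ => Nat.pair 2 φ.code
  | .and φ ψ => Nat.pair 3 (Nat.pair φ.code ψ.code)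
  | .all φ => Nat.pair 4 φ.code

/-! ### Semantics -/

/-- Structures of signature `L` whose universe is a set of natural numbers. -/
structure Str (L : Sig) where
  /-- the universe -/
  U : Set ℕ
  ne : U.Nonempty
  /-- the functions -/
  fn : ℕ → List ℕ → ℕ
  /-- the relations -/
  rel : ℕ → List ℕ → Prop
  closed : ∀ f ∈ L.fn, ∀ l : List ℕ, l.length = L.far f → (∀ x ∈ l, x ∈ U) → fn f l ∈ U

section
variable {L : Sig}

/-- The list of the values of a list of terms (a list with one member in the case of a term). -/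
def Tr.val (M : Str L) (v : ℕ → ℕ) : Tr → List ℕ
  | .var i => [v i]
  | .app f a => [M.fn f (a.val M v)]
  | .nil => []
  | .cons t s => t.val M v ++ s.val M v

/-- Satisfaction. -/
def Sat (M : Str L) : Fm → (ℕ → ℕ) → Prop
  | .eq s t, v => s.val M v = t.val M v
  | .rel R a, v => M.rel R (a.val M v)
  | .neg φ, v => ¬ Sat M φ v
  | .and φ ψ, v => Sat M φ v ∧ Sat M ψ v
  | .all φ, v => ∀ b ∈ M.U, Sat M φ (cons b v)

/-- The sentence is true in `M` (for sentences, the values of the variables are irrelevant). -/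
def Models (M : Str L) (φ : Fm) : Prop := ∀ v : ℕ → ℕ, (∀ i, v i ∈ M.U) → Sat M φ v

/-- The atomic formulas. -/
def Fm.IsAtomic : Fm → Prop
  | .eq _ _ => True
  | .rel _ _ => True
  | _ => False

/-- All variables of an atomic formula belong to `U`. -/
def Fm.VarsIn (U : Set ℕ) : Fm → Prop
  | .eq s t => s.VarsIn U ∧ t.VarsIn U
  | .rel _ a => a.VarsIn U
  | _ => False

/-- The atomic diagram (the set of the Goedel numbers of the atomic sentences with names for the
elements which are true in `M`), the variable `i` being used as the name of the element `i`. -/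
def diagram (M : Str L) : Set ℕ :=
  {n | ∃ φ : Fm, n = φ.code ∧ φ.IsAtomic ∧ φ.Wf L ∧ φ.VarsIn M.U ∧ Sat M φ (fun i => i)}

/-- Computable structures: the universe and the atomic diagram are computable sets. -/
def Str.Comp (M : Str L) : Prop :=
  ComputablePred (fun n => n ∈ M.U) ∧ ComputablePred (fun n => n ∈ diagram M)

end

/-- Complete theories: sets of sentences of `L` which contain each sentence or its negation. -/
def IsComplete (L : Sig) (T : Set Fm) : Prop :=
  (∀ φ ∈ T, IsSentence L φ) ∧ ∀ φ, IsSentence L φ → (φ ∈ T ∨ Fm.neg φ ∈ T)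

/-! ### Turing degrees -/

open Classical in
/-- The characteristic function of a set. -/
noncomputable def chr (A : Set ℕ) : ℕ →. ℕ := fun n => Part.some (if n ∈ A then 1 else 0)

/-- Turing reducibility of sets (Mathlib's notion for their characteristic functions). -/
def TRed (A B : Set ℕ) : Prop := TuringReducible (chr A) (chr B)

/-- The set `∅^(ω) = {⟨n, x⟩ : x ∈ ∅^(n)}`. -/
def omegaJump : Set ℕ := {z | z.unpair.2 ∈ Pool.Agent.N636.SF.jump^[z.unpair.1] ∅}

/-- The theorem: some Turing degree below `0^(ω)` is not the degree of any complete theory with a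
computable model. -/
def Main : Prop :=
  ∃ D : Set ℕ, TRed D omegaJump ∧ ∀ L : Sig, L.Comp → ∀ T : Set Fm, IsComplete L T →
    TRed (Fm.code '' T) D → TRed D (Fm.code '' T) →
      ¬ ∃ M : Str L, M.Comp ∧ ∀ φ ∈ T, Models M φ

/-! ## Statements of the parts -/

/-- Indices for Turing reductions. -/
def S_idx : Prop := ∀ A B : Set ℕ, TRed A B ↔ ∃ e, Pool.Agent.N636.SF.IsIndex B e A

/-- The diagonal argument. -/
def S_diag : Prop := ∀ (O : Set ℕ) (T : ℕ → Set ℕ),
  (∀ P : ℕ → Prop, REPred P → ∃ h : ℕ → ℕ, Computable h ∧ ∀ n, P n ↔ h n ∈ O) →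
  TRed {z | z.unpair.2 ∈ T z.unpair.1} O →
  ∃ D, TRed D O ∧ ∀ i, ¬ (TRed (T i) D ∧ TRed D (T i))

/-- C.e. predicates are reducible to `∅^(ω)`. -/
def S_re : Prop := ∀ P : ℕ → Prop, REPred P →
  ∃ h : ℕ → ℕ, Computable h ∧ ∀ n, P n ↔ h n ∈ omegaJump

/-- The set enumerated by the `e`-th program. -/
def We (e : ℕ) : Set ℕ := {n | 1 ∈ Nat.Partrec.Code.eval (Denumerable.ofNat Nat.Partrec.Code e) n}

/-- Substitution of variables for variables in terms. -/
def Tr.ren (a : ℕ → ℕ) : Tr → Tr
  | .var i => .var (a i)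
  | .app f s => .app f (s.ren a)
  | .nil => .nil
  | .cons t s => .cons (t.ren a) (s.ren a)

/-- Truth in the structure with atomic diagram `E` and universe `U`. -/
def Tru (E U : Set ℕ) : Fm → (ℕ → ℕ) → Prop
  | .eq s t, a => (Fm.eq (s.ren a) (t.ren a)).code ∈ E
  | .rel R s, a => (Fm.rel R (s.ren a)).code ∈ E
  | .neg φ, a => ¬ Tru E U φ a
  | .and φ ψ, a => Tru E U φ a ∧ Tru E U ψ a
  | .all φ, a => ∀ b ∈ U, Tru E U φ (cons b a)

/-- The assignment coded by a number. -/
def asg (p i : ℕ) : ℕ := (Nat.unpair ((fun q => (Nat.unpair q).2)^[i] p)).1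

/-- Truth is reducible to `∅^(ω)`. -/
def S_truth : Prop := ∃ H : ℕ → ℕ, Computable H ∧ ∀ (e e' : ℕ) (φ : Fm) (p : ℕ),
  Tru (We e) (We e') φ (asg p) ↔
    H (Nat.pair (Nat.pair e e') (Nat.pair φ.code p)) ∈ omegaJump

/-- The set of sentences of a computable signature is computable. -/
def S_wf : Prop := ∀ L : Sig, L.Comp →
  ComputablePred fun n => ∃ φ : Fm, n = φ.code ∧ IsSentence L φ

/-- Truth in a structure is determined by the atomic diagram. -/
def S_sem : Prop := ∀ (L : Sig) (M : Str L) (φ : Fm), φ.Wf L → ∀ a : ℕ → ℕ, (∀ i, a i ∈ M.U) →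
  (Sat M φ a ↔ Tru (diagram M) M.U φ a)

end Pool.Agent.N636.TD
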